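import Pool.Agent.U16.UGT.And

/-!
# Projection games, their conjunctions and disjunctions
-/

set_option autoImplicit false
set_option linter.unusedSectionVars false

namespace Pool.Agent.U16.DTO

open Finset Pool.Agent.NPC Pool.Agent.NPC.R671
open Pool.Agent.U16.UGO (card_pairs card_pairs' ofFn_prod ofFn_flatMap orR poly_orR copR poly_copR)
open Pool.Agent.U16.UGT (Raw andR poly_andR)

/-- A projection game: a list of `k` edges; each edge has a vertex in `{0, …, N - 1}`, whose labels
are in `{0, …, A - 1}`, a vertex in `{0, …, M - 1}`, whose labels are in `{0, …, B - 1}`, and a map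
from the first to the second set of labels. -/
abbrev PGame (N M A B k : ℕ) : Type := Fin k → Fin N × Fin M × (Fin A → Fin B)

variable {N M A B k N' M' A' B' k' d d' : ℕ}

/-- Each label has at most `d` preimages under the map of each edge. -/
def Fib (d : ℕ) (g : PGame N M A B k) : Prop :=
  ∀ e b, (univ.filter fun a => (g e).2.2 a = b).card ≤ d

/-- Different edges have different pairs of vertices. -/
def Simple (g : PGame N M A B k) : Prop :=
  Function.Injective fun e => ((g e).1, (g e).2.1)

/-- The edges which are satisfied by a labeling. -/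
def sat (g : PGame N M A B k) (L : Fin N → Fin A) (R : Fin M → Fin B) : Finset (Fin k) :=
  univ.filter fun e => (g e).2.2 (L (g e).1) = R (g e).2.1

/-- Some labeling satisfies all edges. -/
def Full (g : PGame N M A B k) : Prop :=
  ∃ (L : Fin N → Fin A) (R : Fin M → Fin B), ∀ e, (g e).2.2 (L (g e).1) = R (g e).2.1

/-- The value of the game is less than `δ`. -/
def Below (δ : ℝ) (g : PGame N M A B k) : Prop :=
  ∀ (L : Fin N → Fin A) (R : Fin M → Fin B), ((sat g L R).card : ℝ) < δ * k

/-- The value of the game is at most `δ`. -/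
def AtMost (δ : ℝ) (g : PGame N M A B k) : Prop :=
  ∀ (L : Fin N → Fin A) (R : Fin M → Fin B), ((sat g L R).card : ℝ) ≤ δ * k

/-- The data of a game. -/
def raw (g : PGame N M A B k) : Raw :=
  (N, M, List.ofFn fun e => (((g e).1 : ℕ), ((g e).2.1 : ℕ), List.ofFn fun a => ((g e).2.2 a : ℕ)))

/-- The code of a game as a bit string. -/
def code (g : PGame N M A B k) : List Bool := bits (raw g)

/-! ### Operations on maps -/

/-- The map of two disjoint alphabets. -/
def msum (π : Fin A → Fin B) (π' : Fin A' → Fin B') : Fin (A + A') → Fin (B + B') :=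
  Fin.addCases (fun a => Fin.castAdd B' (π a)) fun a => Fin.natAdd B (π' a)

@[simp] theorem msum_left (π : Fin A → Fin B) (π' : Fin A' → Fin B') (a : Fin A) :
    msum π π' (Fin.castAdd A' a) = Fin.castAdd B' (π a) := by
  simp [msum]

@[simp] theorem msum_right (π : Fin A → Fin B) (π' : Fin A' → Fin B') (a : Fin A') :
    msum π π' (Fin.natAdd A a) = Fin.natAdd B (π' a) := by
  simp [msum]

/-- The map of the pairs of labels. -/
def mprod (π : Fin A → Fin B) (π' : Fin A' → Fin B') : Fin (A * A') → Fin (B * B') := fun x =>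
  finProdFinEquiv (π (finProdFinEquiv.symm x).1, π' (finProdFinEquiv.symm x).2)

@[simp] theorem mprod_apply (π : Fin A → Fin B) (π' : Fin A' → Fin B') (a : Fin A) (a' : Fin A') :
    mprod π π' (finProdFinEquiv (a, a')) = finProdFinEquiv (π a, π' a') := by
  simp [mprod]

theorem mprod_symm (π : Fin A → Fin B) (π' : Fin A' → Fin B') (x : Fin (A * A')) :
    finProdFinEquiv.symm (mprod π π' x) =
      (π (finProdFinEquiv.symm x).1, π' (finProdFinEquiv.symm x).2) := by
  simp [mprod]

theorem fib_msum {π : Fin A → Fin B} {π' : Fin A' → Fin B'}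
    (h : ∀ b, (univ.filter fun a => π a = b).card ≤ d)
    (h' : ∀ b, (univ.filter fun a => π' a = b).card ≤ d) (b : Fin (B + B')) :
    (univ.filter fun a => msum π π' a = b).card ≤ d := by
  rw [Finset.card_filter, Fin.sum_univ_add]
  simp only [msum_left, msum_right]
  refine Fin.addCases (fun b => ?_) (fun b => ?_) b
  · have h1 : ∀ a : Fin A', ¬ Fin.natAdd B (π' a) = Fin.castAdd B' b := by
      intro a ha
      have := congrArg Fin.val ha
      simp at this
      omega
    simp only [h1, if_false, Finset.sum_const_zero, add_zero, Fin.castAdd_inj]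
    rw [← Finset.card_filter]
    exact h b
  · have h1 : ∀ a : Fin A, ¬ Fin.castAdd B' (π a) = Fin.natAdd B b := by
      intro a ha
      have := congrArg Fin.val ha
      simp at this
      omega
    simp only [h1, if_false, Finset.sum_const_zero, zero_add, Fin.natAdd_inj]
    rw [← Finset.card_filter]
    exact h' b

theorem fib_mprod {π : Fin A → Fin B} {π' : Fin A' → Fin B'}
    (h : ∀ b, (univ.filter fun a => π a = b).card ≤ d)
    (h' : ∀ b, (univ.filter fun a => π' a = b).card ≤ d') (b : Fin (B * B')) :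
    (univ.filter fun a => mprod π π' a = b).card ≤ d * d' := by
  obtain ⟨⟨b, b'⟩, rfl⟩ := finProdFinEquiv.surjective b
  have h1 : (univ.filter fun a => mprod π π' a = finProdFinEquiv (b, b')).card =
      ((univ.filter fun a => π a = b) ×ˢ (univ.filter fun a => π' a = b')).card := by
    refine Finset.card_bij' (fun x _ => finProdFinEquiv.symm x) (fun x _ => finProdFinEquiv x)
      ?_ ?_ ?_ ?_
    · intro x hx
      rw [mem_filter] at hx
      have h2 := congrArg finProdFinEquiv.symm hx.2
      rw [mprod_symm, Equiv.symm_apply_apply, Prod.mk.injEq] at h2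
      rw [mem_product, mem_filter, mem_filter]
      exact ⟨⟨mem_univ _, h2.1⟩, ⟨mem_univ _, h2.2⟩⟩
    · intro x hx
      rw [mem_product, mem_filter, mem_filter] at hx
      rw [mem_filter]
      exact ⟨mem_univ _, by rw [mprod_apply, hx.1.2, hx.2.2]⟩
    · intro x _
      exact finProdFinEquiv.apply_symm_apply x
    · intro x _
      exact finProdFinEquiv.symm_apply_apply x
  rw [h1, card_product]
  exact Nat.mul_le_mul (h b) (h' b')

/-! ### The games -/

/-- The disjunction of two games: the vertices, and the edges, are the pairs of vertices, and of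
edges, and the alphabets are the disjoint unions of the alphabets. -/
def orP (g : PGame N M A B k) (g' : PGame N' M' A' B' k') :
    PGame (N * N') (M * M') (A + A') (B + B') (k * k') := fun e =>
  (finProdFinEquiv ((g (finProdFinEquiv.symm e).1).1, (g' (finProdFinEquiv.symm e).2).1),
    finProdFinEquiv ((g (finProdFinEquiv.symm e).1).2.1, (g' (finProdFinEquiv.symm e).2).2.1),
    msum (g (finProdFinEquiv.symm e).1).2.2 (g' (finProdFinEquiv.symm e).2).2.2)

/-- The conjunction of two games: the vertices, the edges and the labels are the pairs of vertices,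
of edges and of labels. -/
def andP (g : PGame N M A B k) (g' : PGame N' M' A' B' k') :
    PGame (N * N') (M * M') (A * A') (B * B') (k * k') := fun e =>
  (finProdFinEquiv ((g (finProdFinEquiv.symm e).1).1, (g' (finProdFinEquiv.symm e).2).1),
    finProdFinEquiv ((g (finProdFinEquiv.symm e).1).2.1, (g' (finProdFinEquiv.symm e).2).2.1),
    mprod (g (finProdFinEquiv.symm e).1).2.2 (g' (finProdFinEquiv.symm e).2).2.2)

/-- `m` disjoint copies of a game. -/
def copies (m : ℕ) (g : PGame N M A B k) : PGame (N * m) (M * m) A B (k * m) := fun e =>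
  (finProdFinEquiv ((g (finProdFinEquiv.symm e).1).1, (finProdFinEquiv.symm e).2),
    finProdFinEquiv ((g (finProdFinEquiv.symm e).1).2.1, (finProdFinEquiv.symm e).2),
    (g (finProdFinEquiv.symm e).1).2.2)

theorem Fib.or {g : PGame N M A B k} {g' : PGame N' M' A' B' k'} (h : Fib d g) (h' : Fib d g') :
    Fib d (orP g g') := fun _ b => fib_msum (h _) (h' _) b

theorem Fib.and {g : PGame N M A B k} {g' : PGame N' M' A' B' k'} (h : Fib d g) (h' : Fib d' g') :
    Fib (d * d') (andP g g') := fun _ b => fib_mprod (h _) (h' _) b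

theorem Fib.copies {g : PGame N M A B k} (h : Fib d g) (m : ℕ) : Fib d (copies m g) :=
  fun _ b => h _ b

theorem Fib.mono {g : PGame N M A B k} (h : Fib d g) (h' : d ≤ d') : Fib d' g :=
  fun e b => (h e b).trans h'

theorem Simple.or {g : PGame N M A B k} {g' : PGame N' M' A' B' k'} (h : Simple g)
    (h' : Simple g') : Simple (orP g g') := by
  intro e e' he
  unfold orP at he
  simp only [Prod.mk.injEq, EmbeddingLike.apply_eq_iff_eq] at he
  refine finProdFinEquiv.symm.injective (Prod.ext (h ?_) (h' ?_))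
  · exact Prod.ext he.1.1 he.2.1
  · exact Prod.ext he.1.2 he.2.2

theorem Simple.and {g : PGame N M A B k} {g' : PGame N' M' A' B' k'} (h : Simple g)
    (h' : Simple g') : Simple (andP g g') := by
  intro e e' he
  unfold andP at he
  simp only [Prod.mk.injEq, EmbeddingLike.apply_eq_iff_eq] at he
  refine finProdFinEquiv.symm.injective (Prod.ext (h ?_) (h' ?_))
  · exact Prod.ext he.1.1 he.2.1
  · exact Prod.ext he.1.2 he.2.2

theorem Full.or_left {g : PGame N M A B k} (h : Full g) (g' : PGame N' M' A' B' k') :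
    Full (orP g g') := by
  obtain ⟨L, R, h⟩ := h
  refine ⟨fun w => Fin.castAdd A' (L (finProdFinEquiv.symm w).1),
    fun w => Fin.castAdd B' (R (finProdFinEquiv.symm w).1), fun e => ?_⟩
  unfold orP
  simp only [Equiv.symm_apply_apply, msum_left, h]

theorem Full.or_right (g : PGame N M A B k) {g' : PGame N' M' A' B' k'} (h : Full g') :
    Full (orP g g') := by
  obtain ⟨L, R, h⟩ := h
  refine ⟨fun w => Fin.natAdd A (L (finProdFinEquiv.symm w).2),
    fun w => Fin.natAdd B (R (finProdFinEquiv.symm w).2), fun e => ?_⟩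
  unfold orP
  simp only [Equiv.symm_apply_apply, msum_right, h]

theorem Full.and {g : PGame N M A B k} {g' : PGame N' M' A' B' k'} (h : Full g) (h' : Full g') :
    Full (andP g g') := by
  obtain ⟨L, R, h⟩ := h
  obtain ⟨L', R', h'⟩ := h'
  refine ⟨fun w => finProdFinEquiv (L (finProdFinEquiv.symm w).1, L' (finProdFinEquiv.symm w).2),
    fun w => finProdFinEquiv (R (finProdFinEquiv.symm w).1, R' (finProdFinEquiv.symm w).2),
    fun e => ?_⟩
  unfold andP
  simp only [Equiv.symm_apply_apply, mprod_apply, h, h']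

/-! ### Counting satisfied edges -/

/-- The edges satisfied by labels of larger alphabets that belong to the alphabets of the game. -/
theorem part_count {P : ℕ → Prop} (h0 : P 0) {g : PGame N M A B k}
    (h : ∀ L R, ∃ c, P c ∧ (sat g L R).card ≤ c) {X Y : Type}
    [DecidableEq X] [DecidableEq Y] (ι : Fin A → X) (κ : Fin B → Y) (hι : Function.Injective ι)
    (hκ : Function.Injective κ) (L : Fin N → X) (R : Fin M → Y) :
    ∃ c, P c ∧ (univ.filter fun i : Fin k => ∃ a, L (g i).1 = ι a ∧
      R (g i).2.1 = κ ((g i).2.2 a)).card ≤ c := by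
  classical
  rcases Nat.eq_zero_or_pos A with hA | hA
  · subst hA
    refine ⟨0, h0, ?_⟩
    have h2 : (univ.filter fun i : Fin k => ∃ a, L (g i).1 = ι a ∧
        R (g i).2.1 = κ ((g i).2.2 a)) = ∅ := by
      ext i
      simp
    rw [h2, Finset.card_empty]
  rcases Nat.eq_zero_or_pos B with hB | hB
  · subst hB
    refine ⟨0, h0, ?_⟩
    have h2 : (univ.filter fun i : Fin k => ∃ a, L (g i).1 = ι a ∧
        R (g i).2.1 = κ ((g i).2.2 a)) = ∅ := by
      ext i
      simp only [mem_filter, mem_univ, true_and, notMem_empty, iff_false]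
      rintro ⟨a, -⟩
      exact ((g i).2.2 a).elim0
    rw [h2, Finset.card_empty]
  let dL : Fin N → Fin A := fun u => if h : ∃ a, L u = ι a then h.choose else ⟨0, hA⟩
  let dR : Fin M → Fin B := fun u => if h : ∃ a, R u = κ a then h.choose else ⟨0, hB⟩
  have hdL : ∀ u a, L u = ι a → dL u = a := by
    intro u a hu
    have hex : ∃ a, L u = ι a := ⟨a, hu⟩
    have h1 : dL u = hex.choose := dif_pos hex
    rw [h1]
    exact hι (hex.choose_spec.symm.trans hu)
  have hdR : ∀ u a, R u = κ a → dR u = a := by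
    intro u a hu
    have hex : ∃ a, R u = κ a := ⟨a, hu⟩
    have h1 : dR u = hex.choose := dif_pos hex
    rw [h1]
    exact hκ (hex.choose_spec.symm.trans hu)
  obtain ⟨c, hc, hle⟩ := h dL dR
  refine ⟨c, hc, le_trans (Finset.card_le_card fun i hi => ?_) hle⟩
  rw [mem_filter] at hi
  obtain ⟨-, a, hi1, hi2⟩ := hi
  unfold sat
  rw [mem_filter]
  exact ⟨mem_univ _, by rw [hdL _ _ hi1, hdR _ _ hi2]⟩

/-- The satisfied edges of the disjunction. -/
theorem or_count {P P' : ℕ → Prop} (h0 : P 0) (h0' : P' 0) {g : PGame N M A B k}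
    {g' : PGame N' M' A' B' k'} (h : ∀ L R, ∃ c, P c ∧ (sat g L R).card ≤ c)
    (h' : ∀ L R, ∃ c, P' c ∧ (sat g' L R).card ≤ c) (L : Fin (N * N') → Fin (A + A'))
    (R : Fin (M * M') → Fin (B + B')) :
    ∃ (c : Fin k' → ℕ) (c' : Fin k → ℕ), (∀ j, P (c j)) ∧ (∀ i, P' (c' i)) ∧
      (sat (orP g g') L R).card ≤ ∑ j, c j + ∑ i, c' i := by
  classical
  have e1 : ∀ i j, (orP g g' (finProdFinEquiv (i, j))).1 =
      finProdFinEquiv ((g i).1, (g' j).1) := by
    intro i j
    unfold orP
    simp only [Equiv.symm_apply_apply]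
  have e2 : ∀ i j, (orP g g' (finProdFinEquiv (i, j))).2.1 =
      finProdFinEquiv ((g i).2.1, (g' j).2.1) := by
    intro i j
    unfold orP
    simp only [Equiv.symm_apply_apply]
  set p1 : Fin (k * k') → Prop := fun e => ∃ a, L (orP g g' e).1 = Fin.castAdd A' a ∧
    R (orP g g' e).2.1 = Fin.castAdd B' ((g (finProdFinEquiv.symm e).1).2.2 a) with hp1
  set p2 : Fin (k * k') → Prop := fun e => ∃ a, L (orP g g' e).1 = Fin.natAdd A a ∧
    R (orP g g' e).2.1 = Fin.natAdd B ((g' (finProdFinEquiv.symm e).2).2.2 a) with hp2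
  have hsplit : sat (orP g g') L R ⊆ univ.filter p1 ∪ univ.filter p2 := by
    intro e he
    unfold sat at he
    rw [mem_filter] at he
    obtain ⟨-, he⟩ := he
    rw [mem_union, mem_filter, mem_filter]
    have e3' : (orP g g' e).2.2 = msum (g (finProdFinEquiv.symm e).1).2.2
      (g' (finProdFinEquiv.symm e).2).2.2 := rfl
    rw [e3'] at he
    obtain ⟨x, hx⟩ : ∃ x, x = L (orP g g' e).1 := ⟨_, rfl⟩
    rw [← hx] at he
    revert he hx
    refine Fin.addCases (fun a => ?_) (fun a => ?_) x
    · intro he hx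
      rw [msum_left] at he
      exact Or.inl ⟨mem_univ _, a, hx.symm, he.symm⟩
    · intro he hx
      rw [msum_right] at he
      exact Or.inr ⟨mem_univ _, a, hx.symm, he.symm⟩
  choose c hc hc' using fun j : Fin k' => part_count h0 h (Fin.castAdd A') (Fin.castAdd B')
    (Fin.castAdd_injective _ _) (Fin.castAdd_injective _ _)
    (fun u => L (finProdFinEquiv (u, (g' j).1))) (fun u => R (finProdFinEquiv (u, (g' j).2.1)))
  choose c2 hc2 hc2' using fun i : Fin k => part_count h0' h' (Fin.natAdd A) (Fin.natAdd B)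
    (Fin.natAdd_injective _ _) (Fin.natAdd_injective _ _)
    (fun u => L (finProdFinEquiv ((g i).1, u))) (fun u => R (finProdFinEquiv ((g i).2.1, u)))
  refine ⟨c, c2, hc, hc2, ?_⟩
  refine ((Finset.card_le_card hsplit).trans (Finset.card_union_le _ _)).trans
    (Nat.add_le_add ?_ ?_)
  · rw [card_pairs]
    refine Finset.sum_le_sum fun j _ => le_trans (le_of_eq ?_) (hc' j)
    congr 1
    refine Finset.filter_congr fun i _ => ?_
    rw [hp1]
    simp only [e1, e2, Equiv.symm_apply_apply]
  · rw [card_pairs']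
    refine Finset.sum_le_sum fun i _ => le_trans (le_of_eq ?_) (hc2' i)
    congr 1
    refine Finset.filter_congr fun j _ => ?_
    rw [hp2]
    simp only [e1, e2, Equiv.symm_apply_apply]

/-- The satisfied edges of the conjunction. -/
theorem and_count_left {P : ℕ → Prop} {g : PGame N M A B k}
    (h : ∀ L R, ∃ c, P c ∧ (sat g L R).card ≤ c) (g' : PGame N' M' A' B' k')
    (L : Fin (N * N') → Fin (A * A')) (R : Fin (M * M') → Fin (B * B')) :
    ∃ c : Fin k' → ℕ, (∀ j, P (c j)) ∧ (sat (andP g g') L R).card ≤ ∑ j, c j := by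
  choose c hc hc' using fun j : Fin k' => h (fun u => (finProdFinEquiv.symm
    (L (finProdFinEquiv (u, (g' j).1)))).1) (fun u => (finProdFinEquiv.symm
    (R (finProdFinEquiv (u, (g' j).2.1)))).1)
  refine ⟨c, hc, ?_⟩
  unfold sat
  rw [card_pairs]
  refine Finset.sum_le_sum fun j _ => le_trans (Finset.card_le_card fun i hi => ?_) (hc' j)
  unfold sat
  rw [mem_filter] at hi ⊢
  refine ⟨mem_univ _, ?_⟩
  have h1 := congrArg (fun y => (finProdFinEquiv.symm y).1) hi.2
  unfold andP at h1
  simp only [Equiv.symm_apply_apply, mprod_symm] at h1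
  exact h1

theorem and_count_right {P : ℕ → Prop} (g : PGame N M A B k) {g' : PGame N' M' A' B' k'}
    (h : ∀ L R, ∃ c, P c ∧ (sat g' L R).card ≤ c)
    (L : Fin (N * N') → Fin (A * A')) (R : Fin (M * M') → Fin (B * B')) :
    ∃ c : Fin k → ℕ, (∀ j, P (c j)) ∧ (sat (andP g g') L R).card ≤ ∑ j, c j := by
  choose c hc hc' using fun j : Fin k => h (fun u => (finProdFinEquiv.symm
    (L (finProdFinEquiv ((g j).1, u)))).2) (fun u => (finProdFinEquiv.symm
    (R (finProdFinEquiv ((g j).2.1, u)))).2)
  refine ⟨c, hc, ?_⟩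
  unfold sat
  rw [card_pairs']
  refine Finset.sum_le_sum fun j _ => le_trans (Finset.card_le_card fun i hi => ?_) (hc' j)
  unfold sat
  rw [mem_filter] at hi ⊢
  refine ⟨mem_univ _, ?_⟩
  have h1 := congrArg (fun y => (finProdFinEquiv.symm y).2) hi.2
  unfold andP at h1
  simp only [Equiv.symm_apply_apply, mprod_symm] at h1
  exact h1

theorem copies_count {P : ℕ → Prop} (m : ℕ) {g : PGame N M A B k}
    (h : ∀ L R, ∃ c, P c ∧ (sat g L R).card ≤ c)
    (L : Fin (N * m) → Fin A) (R : Fin (M * m) → Fin B) :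
    ∃ c : Fin m → ℕ, (∀ j, P (c j)) ∧ (sat (copies m g) L R).card ≤ ∑ j, c j := by
  choose c hc hc' using fun j : Fin m => h (fun u => L (finProdFinEquiv (u, j)))
    (fun u => R (finProdFinEquiv (u, j)))
  refine ⟨c, hc, ?_⟩
  unfold sat
  rw [card_pairs]
  refine Finset.sum_le_sum fun j _ => le_trans (le_of_eq ?_) (hc' j)
  unfold sat
  congr 1
  refine Finset.filter_congr fun i _ => ?_
  unfold copies
  simp only [Equiv.symm_apply_apply]

theorem sum_le {m : ℕ} {v : ℝ} {c : Fin m → ℕ} (h : ∀ j, (c j : ℝ) ≤ v) :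
    ((∑ j, c j : ℕ) : ℝ) ≤ m * v := by
  push_cast
  calc _ ≤ ∑ _j : Fin m, v := Finset.sum_le_sum fun j _ => h j
    _ = m * v := by rw [Finset.sum_const, Finset.card_univ, Fintype.card_fin, nsmul_eq_mul]

theorem sum_lt {m : ℕ} (hm : 0 < m) {v : ℝ} {c : Fin m → ℕ} (h : ∀ j, (c j : ℝ) < v) :
    ((∑ j, c j : ℕ) : ℝ) < m * v := by
  push_cast
  have : Nonempty (Fin m) := ⟨⟨0, hm⟩⟩
  calc _ < ∑ _j : Fin m, v := Finset.sum_lt_sum_of_nonempty Finset.univ_nonempty fun j _ => h j
    _ = m * v := by rw [Finset.sum_const, Finset.card_univ, Fintype.card_fin, nsmul_eq_mul]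

/-- The value of the disjunction is at most the sum of the values. -/
theorem AtMost.or {v v' : ℝ} (hv : 0 ≤ v) (hv' : 0 ≤ v') {g : PGame N M A B k}
    (h : AtMost v g) {g' : PGame N' M' A' B' k'} (h' : AtMost v' g') :
    AtMost (v + v') (orP g g') := by
  intro L R
  obtain ⟨c, c', h1, h2, h3⟩ := or_count (P := fun c => (c : ℝ) ≤ v * k)
    (P' := fun c => (c : ℝ) ≤ v' * k') (by simp only [Nat.cast_zero]; positivity)
    (by simp only [Nat.cast_zero]; positivity) (fun L R => ⟨_, h L R, le_rfl⟩)
    (fun L R => ⟨_, h' L R, le_rfl⟩) L R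
  have h4 := sum_le h1
  have h5 := sum_le h2
  have h6 : ((sat (orP g g') L R).card : ℝ) ≤ ((∑ j, c j : ℕ) : ℝ) + ((∑ i, c' i : ℕ) : ℝ) := by
    exact_mod_cast h3
  refine (h6.trans (add_le_add h4 h5)).trans (le_of_eq ?_)
  push_cast
  ring

theorem Below.or {v v' : ℝ} (hv : 0 < v) (hv' : 0 < v') (hk : 0 < k) (hk' : 0 < k')
    {g : PGame N M A B k} (h : Below v g) {g' : PGame N' M' A' B' k'} (h' : Below v' g') :
    Below (v + v') (orP g g') := by
  intro L R
  have hkR : (0 : ℝ) < k := by exact_mod_cast hk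
  have hkR' : (0 : ℝ) < k' := by exact_mod_cast hk'
  obtain ⟨c, c', h1, h2, h3⟩ := or_count (P := fun c => (c : ℝ) < v * k)
    (P' := fun c => (c : ℝ) < v' * k') (by simp only [Nat.cast_zero]; positivity)
    (by simp only [Nat.cast_zero]; positivity) (fun L R => ⟨_, h L R, le_rfl⟩)
    (fun L R => ⟨_, h' L R, le_rfl⟩) L R
  have h4 := sum_lt hk' h1
  have h5 := sum_lt hk h2
  have h6 : ((sat (orP g g') L R).card : ℝ) ≤ ((∑ j, c j : ℕ) : ℝ) + ((∑ i, c' i : ℕ) : ℝ) := by
    exact_mod_cast h3
  refine (lt_of_le_of_lt h6 (add_lt_add h4 h5)).trans_eq ?_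
  push_cast
  ring

/-- A game of value less than `v` and a game of value at most `v'`. -/
theorem Below.or_atMost {v v' : ℝ} (hv : 0 < v) (hv' : 0 ≤ v') (hk : 0 < k) (hk' : 0 < k')
    {g : PGame N M A B k} (h : Below v g) {g' : PGame N' M' A' B' k'} (h' : AtMost v' g') :
    Below (v + v') (orP g g') := by
  intro L R
  have hkR : (0 : ℝ) < k := by exact_mod_cast hk
  obtain ⟨c, c', h1, h2, h3⟩ := or_count (P := fun c => (c : ℝ) < v * k)
    (P' := fun c => (c : ℝ) ≤ v' * k') (by simp only [Nat.cast_zero]; positivity)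
    (by simp only [Nat.cast_zero]; positivity) (fun L R => ⟨_, h L R, le_rfl⟩)
    (fun L R => ⟨_, h' L R, le_rfl⟩) L R
  have h4 := sum_lt hk' h1
  have h5 := sum_le h2
  have h6 : ((sat (orP g g') L R).card : ℝ) ≤ ((∑ j, c j : ℕ) : ℝ) + ((∑ i, c' i : ℕ) : ℝ) := by
    exact_mod_cast h3
  refine (lt_of_le_of_lt h6 (add_lt_add_of_lt_of_le h4 h5)).trans_eq ?_
  push_cast
  ring

theorem Below.and_left {v : ℝ} (hk' : 0 < k') {g : PGame N M A B k} (h : Below v g)
    (g' : PGame N' M' A' B' k') : Below v (andP g g') := by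
  intro L R
  obtain ⟨c, h1, h3⟩ := and_count_left (P := fun c => (c : ℝ) < v * k)
    (fun L R => ⟨_, h L R, le_rfl⟩) g' L R
  have h4 := sum_lt hk' h1
  have h6 : ((sat (andP g g') L R).card : ℝ) ≤ ((∑ j, c j : ℕ) : ℝ) := by
    exact_mod_cast h3
  refine (lt_of_le_of_lt h6 h4).trans_eq ?_
  push_cast
  ring

theorem Below.and_right {v : ℝ} (hk : 0 < k) (g : PGame N M A B k) {g' : PGame N' M' A' B' k'}
    (h : Below v g') : Below v (andP g g') := by
  intro L R
  obtain ⟨c, h1, h3⟩ := and_count_right (P := fun c => (c : ℝ) < v * k') g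
    (fun L R => ⟨_, h L R, le_rfl⟩) L R
  have h4 := sum_lt hk h1
  have h6 : ((sat (andP g g') L R).card : ℝ) ≤ ((∑ j, c j : ℕ) : ℝ) := by
    exact_mod_cast h3
  refine (lt_of_le_of_lt h6 h4).trans_eq ?_
  push_cast
  ring

theorem AtMost.copies {v : ℝ} (m : ℕ) {g : PGame N M A B k} (h : AtMost v g) :
    AtMost v (copies m g) := by
  intro L R
  obtain ⟨c, h1, h3⟩ := copies_count (P := fun c => (c : ℝ) ≤ v * k) m
    (fun L R => ⟨_, h L R, le_rfl⟩) L R
  have h4 := sum_le h1
  have h6 : ((sat (DTO.copies m g) L R).card : ℝ) ≤ ((∑ j, c j : ℕ) : ℝ) := by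
    exact_mod_cast h3
  refine (h6.trans h4).trans_eq ?_
  push_cast
  ring

/-! ### The data -/

theorem raw_or (g : PGame N M A B k) (g' : PGame N' M' A' B' k') :
    raw (orP g g') = orR B (raw g) (raw g') := by
  unfold raw orR
  refine Prod.ext rfl (Prod.ext rfl ?_)
  simp only
  rw [ofFn_prod, ofFn_flatMap]
  congr 2
  funext i
  rw [List.map_ofFn, List.ofFn_inj]
  funext j
  unfold orP
  simp only [Equiv.symm_apply_apply, Function.comp]
  refine Prod.ext rfl (Prod.ext rfl ?_)
  simp only
  rw [List.map_ofFn]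
  apply List.ext_getElem
  · simp
  · intro a h1 h2
    rw [List.getElem_ofFn, List.getElem_append]
    simp only [List.length_ofFn] at h1
    split_ifs with h
    · simp only [List.length_ofFn] at h
      rw [List.getElem_ofFn]
      have h3 : (⟨a, h1⟩ : Fin (A + A')) = Fin.castAdd A' ⟨a, h⟩ := rfl
      rw [h3, msum_left]
      rfl
    · simp only [List.length_ofFn, not_lt] at h
      rw [List.getElem_ofFn]
      have h3 : (⟨a, h1⟩ : Fin (A + A')) = Fin.natAdd A ⟨a - A, by omega⟩ := by
        ext
        simp only [Fin.natAdd_mk]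
        omega
      rw [h3, msum_right]
      simp

theorem raw_and (g : PGame N M A B k) (g' : PGame N' M' A' B' k') :
    raw (andP g g') = andR B' (raw g) (raw g') := by
  unfold raw andR
  refine Prod.ext rfl (Prod.ext rfl ?_)
  simp only
  rw [ofFn_prod, ofFn_flatMap]
  congr 2
  funext i
  rw [List.map_ofFn, List.ofFn_inj]
  funext j
  unfold andP
  simp only [Equiv.symm_apply_apply, Function.comp]
  refine Prod.ext rfl (Prod.ext rfl ?_)
  simp only
  rw [ofFn_prod, ofFn_flatMap]
  congr 2
  funext a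
  rw [List.map_ofFn, List.ofFn_inj]
  funext a'
  rw [mprod_apply]
  rfl

theorem raw_copies (m : List Unit) (g : PGame N M A B k) :
    raw (copies m.length g) = copR m (raw g) := by
  unfold raw copR
  refine Prod.ext rfl (Prod.ext rfl ?_)
  simp only
  rw [ofFn_prod, ofFn_flatMap]
  congr 2
  funext i
  apply List.ext_getElem
  · simp
  · intro a h1 h2
    rw [List.getElem_ofFn, List.getElem_map, List.getElem_range]
    unfold copies
    simp only [Equiv.symm_apply_apply]
    rfl

end Pool.Agent.U16.DTO
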