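import Pool.Agent.U16.DTO.Pull
import Pool.Agent.U16.UGO.Main

/-!
# 2-to-1 games on the hardest instances
-/

set_option autoImplicit false
set_option linter.unusedSectionVars false

namespace Pool.Agent.U16.DTO

open Finset Pool.Agent.NPC Pool.Agent.NPC.R671 Pool.Agent.W888.DX
open Pool.Agent.U16.UGO (card_pairs card_pairs' ofFn_prod ofFn_flatMap orR poly_orR copR poly_copR
  pwl length_pwl poly_pwl number red polyTime_red red1 polyTime_red1 Hard)
open Pool.Agent.U16.UGT (Raw)

variable {N M A B k N' M' A' B' k' d q q' : ℕ}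

/-- The basic semidefinite relaxation of a game. -/
def Rel (ε : ℝ) (g : PGame N M A B k) : Set ((Fin M × Fin B) ⊕ (Fin N × Fin A) → ℝ) :=
  Relax (fun e => (g e).2.1) (fun e => (g e).1) (fun e => (g e).2.2) ε

/-- The basic semidefinite relaxation of the game has a solution of value one, and every proof by
branch-and-cut that the value of the game is less than `1 - ε` is large. -/
def ProofHard (ε η : ℝ) (g : PGame N M A B k) : Prop :=
  (Rel 0 g).Nonempty ∧
  (∀ F : List (Set ((Fin M × Fin B) ⊕ (Fin N × Fin A) → ℝ)), (∀ C ∈ F, Convex ℝ C) →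
    (∀ C ∈ F, ∀ μ ∈ C, μ ∉ Rel ε g) →
    (∀ (L : Fin M → Fin B) (L' : Fin N → Fin A), ∃ C ∈ F, lab L L' ∈ C) →
    Real.exp ((k : ℝ) ^ (1 - η)) ≤ F.length) ∧
  (∀ T : W888.DX.Tree ((Fin M × Fin B) ⊕ (Fin N × Fin A)), T.Proves (Rel ε g) Set.univ →
    Real.exp ((k : ℝ) ^ (1 - η)) ≤ T.leaves) ∧
  ∀ l, SplitProof (Rel ε g) l Set.univ → Real.exp ((k : ℝ) ^ (1 - η)) ≤ 2 * l.length + 1

theorem proofHard_of {ε η : ℝ} (g : PGame N M A B k) (h0 : (Rel 0 g).Nonempty)
    (h : ∀ F : List (Set ((Fin M × Fin B) ⊕ (Fin N × Fin A) → ℝ)), (∀ C ∈ F, Convex ℝ C) →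
      (∀ C ∈ F, ∀ μ ∈ C, μ ∉ Rel ε g) →
      (∀ (L : Fin M → Fin B) (L' : Fin N → Fin A), ∃ C ∈ F, lab L L' ∈ C) →
      Real.exp ((k : ℝ) ^ (1 - η)) ≤ F.length) : ProofHard ε η g := by
  have hT : ∀ T : W888.DX.Tree ((Fin M × Fin B) ⊕ (Fin N × Fin A)), T.Proves (Rel ε g) Set.univ →
      Real.exp ((k : ℝ) ^ (1 - η)) ≤ T.leaves := by
    intro T hT
    obtain ⟨F, hF, h1, h2, h3⟩ := cover_labels (Rel ε g) T hT
    rw [← hF]
    exact h F h1 h2 h3
  refine ⟨h0, h, hT, fun l hl => ?_⟩
  obtain ⟨T, hT1, hT2⟩ := tree_of_split (Rel ε g) l Set.univ hl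
  have h1 := hT T hT2
  rw [hT1] at h1
  exact_mod_cast h1

/-- A base game, with the vertices, labels and edges numbered; both alphabets have the same
number of labels. -/
theorem base (ε δ : ℝ) (hε0 : 0 < ε) (hε1 : ε < 1) (hδ : 0 < δ) :
    ∃ (N0 M0 q0 k0 : ℕ) (g0 : PGame N0 M0 q0 q0 k0) (c : ℝ), 0 < k0 ∧ 0 < c ∧ Fib 2 g0 ∧
      AtMost δ g0 ∧ ∀ (m : ℕ) (N M q k : ℕ) (g : PGame N M q q k),
      (Rel 0 (orP g (copies m g0))).Nonempty ∧
      ∀ F : List (Set ((Fin (M * (M0 * m)) × Fin (q + q0)) ⊕
          (Fin (N * (N0 * m)) × Fin (q + q0)) → ℝ)),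
        (∀ C ∈ F, Convex ℝ C) → (∀ C ∈ F, ∀ μ ∈ C, μ ∉ Rel ε (orP g (copies m g0))) →
        (∀ (L : Fin (M * (M0 * m)) → Fin (q + q0)) (L' : Fin (N * (N0 * m)) → Fin (q + q0)),
          ∃ C ∈ F, lab L L' ∈ C) →
        Real.exp (c * m) ≤ F.length := by
  classical
  obtain ⟨V, W, E, A, B, iV, iW, iE, neE, iA, iB, dE, dB, v, w, π, hcard, hfib, hval, hrel, c, hc,
    hcov⟩ := dx_base 1 le_rfl ε δ hε0 hε1.le hδ
  let eV := Fintype.equivFin V
  let eW := Fintype.equivFin W
  let eE := Fintype.equivFin E
  let eA := Fintype.equivFin A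
  have hBA : Fintype.card B ≤ Fintype.card A := by
    rw [hcard]
    omega
  let iotaB : B → Fin (Fintype.card A) := fun b => Fin.castLE hBA (Fintype.equivFin B b)
  have hinjB : Function.Injective iotaB := fun b b' h =>
    (Fintype.equivFin B).injective (Fin.castLE_injective _ h)
  let g0 : PGame (Fintype.card W) (Fintype.card V) (Fintype.card A) (Fintype.card A)
      (Fintype.card E) :=
    fun e => (eW (w (eE.symm e)), eV (v (eE.symm e)), fun a => iotaB (π (eE.symm e) (eA.symm a)))
  have hfib0 : Fib 2 g0 := by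
    intro e b
    by_cases hb : ∃ b', iotaB b' = b
    · obtain ⟨b', rfl⟩ := hb
      refine le_of_eq (Eq.trans ?_ ((hfib (eE.symm e) b').trans (pow_one 2)))
      refine Finset.card_bij (fun a _ => eA.symm a) ?_ ?_ ?_
      · intro a ha
        rw [mem_filter] at ha ⊢
        exact ⟨mem_univ _, hinjB ha.2⟩
      · intro a _ a' _ h
        exact eA.symm.injective h
      · intro a ha
        rw [mem_filter] at ha
        refine ⟨eA a, ?_, eA.symm_apply_apply a⟩
        rw [mem_filter]
        refine ⟨mem_univ _, ?_⟩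
        show iotaB (π (eE.symm e) (eA.symm (eA a))) = iotaB b'
        rw [eA.symm_apply_apply, ha.2]
    · have h1 : (univ.filter fun a => (g0 e).2.2 a = b) = ∅ := by
        rw [filter_eq_empty_iff]
        intro a _ h
        exact hb ⟨_, h⟩
      rw [h1, card_empty]
      omega
  refine ⟨_, _, _, _, g0, c, Fintype.card_pos, hc, hfib0, ?_, ?_⟩
  · intro L R
    have hneB : Nonempty B ∨ IsEmpty V := by
      by_cases hV : Nonempty V
      · left
        have hneA : 0 < Fintype.card A := by
          obtain ⟨u⟩ := hV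
          exact (Nat.zero_le _).trans_lt (R (eV u)).2
        rw [hcard] at hneA
        exact Fintype.card_pos_iff.1 (by omega)
      · right
        exact not_nonempty_iff.1 hV
    let dR : V → B := fun u => if h : ∃ b, iotaB b = R (eV u) then h.choose else
      (hneB.resolve_right fun h => h.false u).some
    have hdR : ∀ u b, iotaB b = R (eV u) → dR u = b := by
      intro u b hu
      have hex : ∃ b, iotaB b = R (eV u) := ⟨b, hu⟩
      have h1 : dR u = hex.choose := dif_pos hex
      rw [h1]
      exact hinjB (hex.choose_spec.trans hu.symm)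
    refine le_trans ?_ (hval (fun u => eA.symm (L (eW u))) dR)
    refine Nat.cast_le.2 ?_
    unfold sat
    refine Finset.card_le_card_of_injOn (fun e => eE.symm e) ?_ ?_
    · intro e he
      rw [mem_coe, mem_filter] at he
      rw [mem_coe, mem_filter]
      refine ⟨mem_univ _, ?_⟩
      symm
      refine hdR _ _ ?_
      exact he.2
    · intro e _ e' _ h
      exact eE.symm.injective h
  · intro m N M q k g
    have e1 : ∀ e, (orP g (copies m g0) e).1 = finProdFinEquiv ((g (finProdFinEquiv.symm e).1).1,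
        finProdFinEquiv ((g0 (finProdFinEquiv.symm (finProdFinEquiv.symm e).2).1).1,
          (finProdFinEquiv.symm (finProdFinEquiv.symm e).2).2)) := fun e => rfl
    have e2 : ∀ e, (orP g (copies m g0) e).2.1 =
        finProdFinEquiv ((g (finProdFinEquiv.symm e).1).2.1,
        finProdFinEquiv ((g0 (finProdFinEquiv.symm (finProdFinEquiv.symm e).2).1).2.1,
          (finProdFinEquiv.symm (finProdFinEquiv.symm e).2).2)) := fun e => rfl
    have e3 : ∀ e, (orP g (copies m g0) e).2.2 = msum (g (finProdFinEquiv.symm e).1).2.2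
        (g0 (finProdFinEquiv.symm (finProdFinEquiv.symm e).2).1).2.2 := fun e => rfl
    let O : Over (fun e : E × Fin m => (v e.1, e.2)) (fun e : E × Fin m => (w e.1, e.2))
        (fun e => π e.1) (fun e => (orP g (copies m g0) e).2.1)
        (fun e => (orP g (copies m g0) e).1) (fun e => (orP g (copies m g0) e).2.2) :=
      { pV := fun u => (eV.symm (finProdFinEquiv.symm (finProdFinEquiv.symm u).2).1,
          (finProdFinEquiv.symm (finProdFinEquiv.symm u).2).2)
        pW := fun u => (eW.symm (finProdFinEquiv.symm (finProdFinEquiv.symm u).2).1,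
          (finProdFinEquiv.symm (finProdFinEquiv.symm u).2).2)
        pE := fun u => (eE.symm (finProdFinEquiv.symm (finProdFinEquiv.symm u).2).1,
          (finProdFinEquiv.symm (finProdFinEquiv.symm u).2).2)
        ι := fun a => Fin.natAdd q (eA a)
        κ := fun b => Fin.natAdd q (iotaB b)
        injA := fun a b h => eA.injective (Fin.natAdd_injective _ _ h)
        injB := fun a b h => hinjB (Fin.natAdd_injective _ _ h)
        hv := fun e => by
          rw [e2]
          simp [g0]
        hw := fun e => by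
          rw [e1]
          simp [g0]
        hπ := fun e a => by
          rw [e3, msum_right]
          simp [g0]
        c := k
        hc := fun e => by
          rw [card_pairs']
          have h1 : ∀ i : Fin k, (univ.filter fun j : Fin (Fintype.card E * m) =>
              ((eE.symm (finProdFinEquiv.symm (finProdFinEquiv.symm (finProdFinEquiv (i, j))).2).1,
                (finProdFinEquiv.symm (finProdFinEquiv.symm (finProdFinEquiv (i, j))).2).2) :
                E × Fin m) = e) = {finProdFinEquiv (eE e.1, e.2)} := by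
            intro i
            ext j
            rw [mem_filter, mem_singleton, Equiv.symm_apply_apply]
            constructor
            · rintro ⟨-, h⟩
              rw [← h]
              simp only [Equiv.apply_symm_apply, Prod.mk.eta]
            · rintro h
              refine ⟨mem_univ _, ?_⟩
              rw [h]
              simp
          simp only [h1, card_singleton]
          rw [Finset.sum_const, card_univ, Fintype.card_fin, smul_eq_mul, mul_one] }
    refine ⟨?_, fun F hconv hmiss hl => ?_⟩
    · obtain ⟨μ, hμ⟩ := hrel m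
      exact ⟨_, O.mem_relax hμ⟩
    · obtain ⟨F0, hF0, h1, h2, h3⟩ := O.cover F hconv hmiss hl
      rw [← hF0]
      exact hcov m F0 h1 h2 h3

/-! ### The promise problems -/

/-- The codes of the 2-to-1 games in the class `F` with alphabet `{0, …, q - 1}` and value one. -/
def YesT (F : ∀ {N M q k : ℕ}, PGame N M q q k → Prop) (q : ℕ) : Set (List Bool) :=
  {x | ∃ (N M k : ℕ) (g : PGame N M q q k), 0 < k ∧ Fib 2 g ∧ F g ∧ Full g ∧ x = code g}

/-- The codes of the 2-to-1 games in the class `F` with alphabet `{0, …, q - 1}` and value at most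
`δ`. -/
def NoT (F : ∀ {N M q k : ℕ}, PGame N M q q k → Prop) (δ : ℝ) (q : ℕ) : Set (List Bool) :=
  {x | ∃ (N M k : ℕ) (g : PGame N M q q k), 0 < k ∧ Fib 2 g ∧ F g ∧ AtMost δ g ∧ x = code g}

theorem red_code (P : ℕ × ℕ × List (ℕ × ℕ × List ℕ) → List Unit) (g : PGame N M A B k)
    (g0 : PGame N' M' A' B' k') :
    red B P (raw g0) (code g) = code (orP g (copies (P (raw g)).length g0)) := by
  unfold red code
  rw [unbits_bits, Option.map_some, raw_or, raw_copies]

theorem red1_code (g : PGame N M A B k) (g0 : PGame N' M' A' B' k') :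
    red1 B (raw g0) (code g) = code (orP g g0) := by
  unfold red1 code
  rw [unbits_bits, Option.map_some, raw_or]

end Pool.Agent.U16.DTO
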