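import Pool.Agent.U16.DTO.Game
import Pool.Agent.U16.UGT.Sat

/-!
# Positive truth-table reductions to projection games
-/

set_option autoImplicit false
set_option linter.unusedSectionVars false

namespace Pool.Agent.U16.DTO

open Finset Pool.Agent.NPC Pool.Agent.NPC.R671
open Pool.Agent.U16.UGO (card_pairs card_pairs' ofFn_prod ofFn_flatMap orR poly_orR copR poly_copR)
open Pool.Agent.U16.UGT (Raw andR poly_andR andF orF poly_andF poly_orF triv Red PosTT poly_head subs)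

variable {N M A B k N' M' A' B' k' d d' : ℕ}

/-- The data is the data of a simple `d`-to-1 game. -/
def Valid (d A B : ℕ) (r : Raw) : Prop :=
  ∃ (N M k : ℕ) (g : PGame N M A B k), 0 < k ∧ Fib d g ∧ Simple g ∧ r = raw g

/-- The data of a simple `d`-to-1 game of value one. -/
def YesR (d A B : ℕ) (r : Raw) : Prop :=
  ∃ (N M k : ℕ) (g : PGame N M A B k), 0 < k ∧ Fib d g ∧ Simple g ∧ Full g ∧ r = raw g

/-- The data of a simple `d`-to-1 game of value less than `δ`. -/
def NoR (δ : ℝ) (d A B : ℕ) (r : Raw) : Prop :=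
  ∃ (N M k : ℕ) (g : PGame N M A B k), 0 < k ∧ Fib d g ∧ Simple g ∧ Below δ g ∧ r = raw g

/-- The data of a simple `d`-to-1 game of value at most `δ`. -/
def NoE (δ : ℝ) (d A B : ℕ) (r : Raw) : Prop :=
  ∃ (N M k : ℕ) (g : PGame N M A B k), 0 < k ∧ Fib d g ∧ Simple g ∧ AtMost δ g ∧ r = raw g

theorem YesR.valid {r : Raw} (h : YesR d A B r) : Valid d A B r := by
  obtain ⟨N, M, k, g, h1, h2, h3, -, h4⟩ := h
  exact ⟨N, M, k, g, h1, h2, h3, h4⟩

theorem NoR.valid {δ : ℝ} {r : Raw} (h : NoR δ d A B r) : Valid d A B r := by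
  obtain ⟨N, M, k, g, h1, h2, h3, -, h4⟩ := h
  exact ⟨N, M, k, g, h1, h2, h3, h4⟩

theorem NoR.toE {δ : ℝ} {r : Raw} (h : NoR δ d A B r) : NoE δ d A B r := by
  obtain ⟨N, M, k, g, h1, h2, h3, h4, h5⟩ := h
  exact ⟨N, M, k, g, h1, h2, h3, fun L R => (h4 L R).le, h5⟩

theorem and_valid {r r' : Raw} (h : Valid d A B r) (h' : Valid d' A' B' r') :
    Valid (d * d') (A * A') (B * B') (andR B' r r') := by
  obtain ⟨N, M, k, g, h1, h2, h3, rfl⟩ := h
  obtain ⟨N', M', k', g', h1', h2', h3', rfl⟩ := h'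
  exact ⟨_, _, _, andP g g', Nat.mul_pos h1 h1', h2.and h2', h3.and h3', (raw_and g g').symm⟩

theorem and_yesR {r r' : Raw} (h : YesR d A B r) (h' : YesR d' A' B' r') :
    YesR (d * d') (A * A') (B * B') (andR B' r r') := by
  obtain ⟨N, M, k, g, h1, h2, h3, h4, rfl⟩ := h
  obtain ⟨N', M', k', g', h1', h2', h3', h4', rfl⟩ := h'
  exact ⟨_, _, _, andP g g', Nat.mul_pos h1 h1', h2.and h2', h3.and h3', h4.and h4',
    (raw_and g g').symm⟩

theorem and_noR_left {δ : ℝ} {r r' : Raw} (h : NoR δ d A B r) (h' : Valid d' A' B' r') :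
    NoR δ (d * d') (A * A') (B * B') (andR B' r r') := by
  obtain ⟨N, M, k, g, h1, h2, h3, h4, rfl⟩ := h
  obtain ⟨N', M', k', g', h1', h2', h3', rfl⟩ := h'
  exact ⟨_, _, _, andP g g', Nat.mul_pos h1 h1', h2.and h2', h3.and h3', h4.and_left h1' g',
    (raw_and g g').symm⟩

theorem and_noR_right {δ : ℝ} {r r' : Raw} (h : Valid d A B r) (h' : NoR δ d' A' B' r') :
    NoR δ (d * d') (A * A') (B * B') (andR B' r r') := by
  obtain ⟨N, M, k, g, h1, h2, h3, rfl⟩ := h
  obtain ⟨N', M', k', g', h1', h2', h3', h4', rfl⟩ := h'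
  exact ⟨_, _, _, andP g g', Nat.mul_pos h1 h1', h2.and h2', h3.and h3', h4'.and_right h1 g,
    (raw_and g g').symm⟩

theorem or_valid {r r' : Raw} (h : Valid d A B r) (h' : Valid d A' B' r') :
    Valid d (A + A') (B + B') (orR B r r') := by
  obtain ⟨N, M, k, g, h1, h2, h3, rfl⟩ := h
  obtain ⟨N', M', k', g', h1', h2', h3', rfl⟩ := h'
  exact ⟨_, _, _, orP g g', Nat.mul_pos h1 h1', h2.or h2', h3.or h3', (raw_or g g').symm⟩

theorem or_yesR_left {r r' : Raw} (h : YesR d A B r) (h' : Valid d A' B' r') :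
    YesR d (A + A') (B + B') (orR B r r') := by
  obtain ⟨N, M, k, g, h1, h2, h3, h4, rfl⟩ := h
  obtain ⟨N', M', k', g', h1', h2', h3', rfl⟩ := h'
  exact ⟨_, _, _, orP g g', Nat.mul_pos h1 h1', h2.or h2', h3.or h3', h4.or_left g',
    (raw_or g g').symm⟩

theorem or_yesR_right {r r' : Raw} (h : Valid d A B r) (h' : YesR d A' B' r') :
    YesR d (A + A') (B + B') (orR B r r') := by
  obtain ⟨N, M, k, g, h1, h2, h3, rfl⟩ := h
  obtain ⟨N', M', k', g', h1', h2', h3', h4', rfl⟩ := h'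
  exact ⟨_, _, _, orP g g', Nat.mul_pos h1 h1', h2.or h2', h3.or h3', Full.or_right g h4',
    (raw_or g g').symm⟩

theorem or_noR {δ δ' : ℝ} (hδ : 0 < δ) (hδ' : 0 ≤ δ') {r r' : Raw} (h : NoR δ d A B r)
    (h' : NoE δ' d A' B' r') : NoR (δ + δ') d (A + A') (B + B') (orR B r r') := by
  obtain ⟨N, M, k, g, h1, h2, h3, h4, rfl⟩ := h
  obtain ⟨N', M', k', g', h1', h2', h3', h4', rfl⟩ := h'
  exact ⟨_, _, _, orP g g', Nat.mul_pos h1 h1', h2.or h2', h3.or h3',
    h4.or_atMost hδ hδ' h1 h1' h4', (raw_or g g').symm⟩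

theorem or_noE {δ δ' : ℝ} (hδ : 0 ≤ δ) (hδ' : 0 ≤ δ') {r r' : Raw} (h : NoE δ d A B r)
    (h' : NoE δ' d A' B' r') : NoE (δ + δ') d (A + A') (B + B') (orR B r r') := by
  obtain ⟨N, M, k, g, h1, h2, h3, h4, rfl⟩ := h
  obtain ⟨N', M', k', g', h1', h2', h3', h4', rfl⟩ := h'
  exact ⟨_, _, _, orP g g', Nat.mul_pos h1 h1', h2.or h2', h3.or h3',
    h4.or hδ hδ' h4', (raw_or g g').symm⟩

/-! ### Special games -/

/-- The game with one edge and the constraint `a ↦ a % B`, for `A = d B`. -/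
def trivD (d B : ℕ) : Raw :=
  raw (fun _ : Fin 1 => (0, 0, fun a => (finProdFinEquiv.symm a).2) : PGame 1 1 (d * B) B 1)

theorem trivD_fib (d B : ℕ) :
    Fib d (fun _ : Fin 1 => (0, 0, fun a => (finProdFinEquiv.symm a).2) :
      PGame 1 1 (d * B) B 1) := by
  intro e b
  simp only
  have h1 : (univ.filter fun a : Fin (d * B) => (finProdFinEquiv.symm a).2 = b) ⊆
      univ.image fun i : Fin d => finProdFinEquiv (i, b) := by
    intro a ha
    rw [mem_filter] at ha
    rw [mem_image]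
    refine ⟨(finProdFinEquiv.symm a).1, mem_univ _, ?_⟩
    rw [← ha.2]
    exact finProdFinEquiv.apply_symm_apply a
  refine (card_le_card h1).trans (card_image_le.trans ?_)
  rw [card_univ, Fintype.card_fin]

theorem simple_one (g : PGame N M A B 1) : Simple g := fun _ _ _ => Subsingleton.elim _ _

theorem trivD_valid (d B : ℕ) : Valid d (d * B) B (trivD d B) :=
  ⟨1, 1, 1, _, one_pos, trivD_fib d B, simple_one _, rfl⟩

theorem trivD_yes (hd : 0 < d) (hB : 0 < B) : YesR d (d * B) B (trivD d B) := by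
  refine ⟨1, 1, 1, _, one_pos, trivD_fib d B, simple_one _,
    ⟨fun _ => finProdFinEquiv (⟨0, hd⟩, ⟨0, hB⟩), fun _ => ⟨0, hB⟩, fun e => ?_⟩, rfl⟩
  simp only [Equiv.symm_apply_apply]

theorem triv_fib (q : ℕ) :
    Fib 1 (fun _ : Fin 1 => (0, 0, fun a => a) : PGame 1 1 q q 1) := by
  intro e b
  simp only
  rw [card_le_one]
  intro a ha a' ha'
  rw [mem_filter] at ha ha'
  exact ha.2.trans ha'.2.symm

theorem triv_valid (q : ℕ) : Valid 1 q q (triv q) :=
  ⟨1, 1, 1, _, one_pos, triv_fib q, simple_one _, rfl⟩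

theorem triv_yes {q : ℕ} (hq : 0 < q) : YesR 1 q q (triv q) :=
  ⟨1, 1, 1, (fun _ : Fin 1 => (0, 0, fun a => a) : PGame 1 1 q q 1), one_pos, triv_fib q,
    simple_one _, ⟨fun _ => ⟨0, hq⟩, fun _ => ⟨0, hq⟩, fun _ => rfl⟩, rfl⟩

theorem triv_noE : NoE 0 d 0 0 (triv 0) :=
  ⟨1, 1, 1, (fun _ : Fin 1 => (0, 0, fun a => a) : PGame 1 1 0 0 1), one_pos,
    fun _ b => b.elim0, simple_one _, fun L _ => (L 0).elim0, rfl⟩

/-! ### Several games -/

theorem andF_valid : ∀ {k : ℕ} {A B : Fin k → ℕ} {r : Fin k → Raw},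
    (∀ i, Valid d (A i) (B i) (r i)) → Valid (d ^ k) (∏ i, A i) (∏ i, B i) (andF k B r)
  | 0, A, B, r, _ => by
    rw [Fin.prod_univ_zero, Fin.prod_univ_zero, pow_zero]
    exact triv_valid 1
  | k + 1, A, B, r, h => by
    rw [Fin.prod_univ_succ, Fin.prod_univ_succ, pow_succ']
    exact and_valid (h 0) (andF_valid fun i => h i.succ)

theorem andF_yes : ∀ {k : ℕ} {A B : Fin k → ℕ} {r : Fin k → Raw},
    (∀ i, YesR d (A i) (B i) (r i)) → YesR (d ^ k) (∏ i, A i) (∏ i, B i) (andF k B r)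
  | 0, A, B, r, _ => by
    rw [Fin.prod_univ_zero, Fin.prod_univ_zero, pow_zero]
    exact triv_yes one_pos
  | k + 1, A, B, r, h => by
    rw [Fin.prod_univ_succ, Fin.prod_univ_succ, pow_succ']
    exact and_yesR (h 0) (andF_yes fun i => h i.succ)

theorem andF_no {δ : ℝ} : ∀ {k : ℕ} {A B : Fin k → ℕ} {r : Fin k → Raw},
    (∀ i, Valid d (A i) (B i) (r i)) → ∀ i, NoR δ d (A i) (B i) (r i) →
    NoR δ (d ^ k) (∏ i, A i) (∏ i, B i) (andF k B r)
  | 0, A, B, r, _ => fun i => i.elim0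
  | k + 1, A, B, r, h => fun i hi => by
    rw [Fin.prod_univ_succ, Fin.prod_univ_succ, pow_succ']
    revert hi
    refine Fin.cases (fun hi => ?_) (fun i hi => ?_) i
    · exact and_noR_left hi (andF_valid fun i => h i.succ)
    · exact and_noR_right (h 0) (andF_no (fun i => h i.succ) i hi)

theorem orF_valid (hd : 0 < d) : ∀ {m : ℕ} {r : Fin m → Raw}, (∀ i, Valid d A B (r i)) →
    Valid d (m * A) (m * B) (orF B m r)
  | 0, r, _ => by
    rw [zero_mul, zero_mul]
    obtain ⟨N, M, k, g, h1, h2, h3, h4⟩ := triv_valid 0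
    exact ⟨N, M, k, g, h1, h2.mono hd, h3, h4⟩
  | m + 1, r, h => by
    rw [Nat.succ_mul, Nat.add_comm, Nat.succ_mul, Nat.add_comm (m * B)]
    exact or_valid (h 0) (orF_valid hd fun i => h i.succ)

theorem orF_yes (hd : 0 < d) : ∀ {m : ℕ} {r : Fin m → Raw}, (∀ i, Valid d A B (r i)) →
    ∀ i, YesR d A B (r i) → YesR d (m * A) (m * B) (orF B m r)
  | 0, r, _ => fun i => i.elim0
  | m + 1, r, h => fun i hi => by
    rw [Nat.succ_mul, Nat.add_comm, Nat.succ_mul, Nat.add_comm (m * B)]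
    revert hi
    refine Fin.cases (fun hi => ?_) (fun i hi => ?_) i
    · exact or_yesR_left hi (orF_valid hd fun i => h i.succ)
    · exact or_yesR_right (h 0) (orF_yes hd (fun i => h i.succ) i hi)

theorem orF_noE {δ : ℝ} (hδ : 0 ≤ δ) : ∀ {m : ℕ} {r : Fin m → Raw},
    (∀ i, NoE δ d A B (r i)) → NoE (m * δ) d (m * A) (m * B) (orF B m r)
  | 0, r, _ => by
    rw [zero_mul, zero_mul, Nat.cast_zero, zero_mul]
    exact triv_noE
  | m + 1, r, h => by
    rw [Nat.succ_mul, Nat.add_comm (m * A), Nat.succ_mul, Nat.add_comm (m * B)]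
    have h1 := or_noE hδ (by positivity) (h 0) (orF_noE hδ fun i => h i.succ)
    have h2 : ((m + 1 : ℕ) : ℝ) * δ = δ + m * δ := by
      push_cast
      ring
    rw [h2]
    exact h1

theorem orF_no {δ : ℝ} (hδ : 0 < δ) {m : ℕ} (hm : 0 < m) {r : Fin m → Raw}
    (h : ∀ i, NoR δ d A B (r i)) : NoR (m * δ) d (m * A) (m * B) (orF B m r) := by
  obtain ⟨m, rfl⟩ := Nat.exists_eq_succ_of_ne_zero hm.ne'
  rw [Nat.succ_mul, Nat.add_comm (m * A), Nat.succ_mul, Nat.add_comm (m * B)]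
  have h1 := or_noR hδ (by positivity) (h 0) (orF_noE hδ.le fun i : Fin m => (h i.succ).toE)
  have h2 : ((m + 1 : ℕ) : ℝ) * δ = δ + m * δ := by
    push_cast
    ring
  have h3 : ((m.succ : ℕ) : ℝ) * δ = δ + m * δ := h2
  rw [h3]
  exact h1

/-! ### Disjunctions of games with different alphabets -/

/-- The disjunction of `m` games. -/
def orV : (m : ℕ) → (Fin m → ℕ) → (Fin m → Raw) → Raw
  | 0, _, _ => triv 0
  | m + 1, B, r => orR (B 0) (r 0) (orV m (fun i => B i.succ) fun i => r i.succ)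

theorem orV_valid (hd : 0 < d) : ∀ {m : ℕ} {A B : Fin m → ℕ} {r : Fin m → Raw},
    (∀ i, Valid d (A i) (B i) (r i)) → Valid d (∑ i, A i) (∑ i, B i) (orV m B r)
  | 0, A, B, r, _ => by
    rw [Fin.sum_univ_zero, Fin.sum_univ_zero]
    obtain ⟨N, M, k, g, h1, h2, h3, h4⟩ := triv_valid 0
    exact ⟨N, M, k, g, h1, h2.mono hd, h3, h4⟩
  | m + 1, A, B, r, h => by
    rw [Fin.sum_univ_succ, Fin.sum_univ_succ]
    exact or_valid (h 0) (orV_valid hd fun i => h i.succ)

theorem orV_yes (hd : 0 < d) : ∀ {m : ℕ} {A B : Fin m → ℕ} {r : Fin m → Raw},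
    (∀ i, Valid d (A i) (B i) (r i)) → ∀ i, YesR d (A i) (B i) (r i) →
    YesR d (∑ i, A i) (∑ i, B i) (orV m B r)
  | 0, A, B, r, _ => fun i => i.elim0
  | m + 1, A, B, r, h => fun i hi => by
    rw [Fin.sum_univ_succ, Fin.sum_univ_succ]
    revert hi
    refine Fin.cases (fun hi => ?_) (fun i hi => ?_) i
    · exact or_yesR_left hi (orV_valid hd fun i => h i.succ)
    · exact or_yesR_right (h 0) (orV_yes hd (fun i => h i.succ) i hi)

theorem orV_noE {δ : ℝ} (hδ : 0 ≤ δ) : ∀ {m : ℕ} {A B : Fin m → ℕ} {r : Fin m → Raw},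
    (∀ i, NoE δ d (A i) (B i) (r i)) → NoE (m * δ) d (∑ i, A i) (∑ i, B i) (orV m B r)
  | 0, A, B, r, _ => by
    rw [Fin.sum_univ_zero, Fin.sum_univ_zero, Nat.cast_zero, zero_mul]
    exact triv_noE
  | m + 1, A, B, r, h => by
    rw [Fin.sum_univ_succ, Fin.sum_univ_succ]
    have h1 := or_noE hδ (by positivity) (h 0) (orV_noE hδ fun i => h i.succ)
    have h2 : ((m + 1 : ℕ) : ℝ) * δ = δ + m * δ := by
      push_cast
      ring
    rw [h2]
    exact h1

theorem orV_no {δ : ℝ} (hδ : 0 < δ) {m : ℕ} (hm : 0 < m) {A B : Fin m → ℕ} {r : Fin m → Raw}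
    (h : ∀ i, NoR δ d (A i) (B i) (r i)) : NoR (m * δ) d (∑ i, A i) (∑ i, B i) (orV m B r) := by
  obtain ⟨m, rfl⟩ := Nat.exists_eq_succ_of_ne_zero hm.ne'
  rw [Fin.sum_univ_succ, Fin.sum_univ_succ]
  have h1 := or_noR hδ (by positivity) (h 0) (orV_noE hδ.le fun i : Fin m => (h i.succ).toE)
  have h3 : ((m.succ : ℕ) : ℝ) * δ = δ + m * δ := by
    push_cast
    ring
  rw [h3]
  exact h1

theorem poly_orV {α : Type} [TEnc α] : ∀ {m : ℕ} (B : Fin m → ℕ) {r : Fin m → α → Raw},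
    (∀ i, Poly (r i)) → Poly (fun a => orV m B fun i => r i a)
  | 0, _, _, _ => by
    unfold orV
    exact NPC.Poly.const _
  | m + 1, B, r, h => by
    unfold orV
    exact poly_orR _ (h 0) (poly_orV (fun i => B i.succ) (r := fun i => r i.succ) fun i =>
      h i.succ)

/-! ### Codes of games -/

/-- The tables of the maps with at most `d` preimages of each label. -/
noncomputable def maps (d A B : ℕ) : List (List ℕ) := by
  classical exact
  ((univ : Finset (Fin A → Fin B)).filter fun π => ∀ b, (univ.filter fun a => π a = b).card ≤ d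
    ).toList.map fun π => List.ofFn fun a => (π a : ℕ)

theorem mem_maps {l : List ℕ} :
    l ∈ maps d A B ↔ ∃ π : Fin A → Fin B, (∀ b, (univ.filter fun a => π a = b).card ≤ d) ∧
      l = List.ofFn fun a => (π a : ℕ) := by
  unfold maps
  simp [eq_comm]

/-- The test whether the data is the data of a game. -/
noncomputable def check (d A B : ℕ) (r : Raw) : Bool :=
  !r.2.2.isEmpty && ((r.2.2.all fun e => decide (e.1 < r.1) && (decide (e.2.1 < r.2.1) &&
    decide (e.2.2 ∈ maps d A B))) && r.2.2.zipIdx.all fun p => r.2.2.zipIdx.all fun p' =>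
      (decide (p.2 = p'.2) || !(decide (p.1.1 = p'.1.1) && decide (p.1.2.1 = p'.1.2.1))))

theorem check_iff {r : Raw} : check d A B r = true ↔ Valid d A B r := by
  obtain ⟨N, M, l⟩ := r
  unfold check
  simp only [Bool.and_eq_true, List.all_eq_true, decide_eq_true_eq, Bool.not_eq_true',
    List.isEmpty_eq_false_iff, mem_maps, Bool.or_eq_true, Bool.and_eq_false_iff,
    decide_eq_false_iff_not]
  constructor
  · rintro ⟨h1, h2, h4⟩
    have h3 : ∀ i : Fin l.length, l[i] ∈ l := fun i => List.getElem_mem _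
    choose π hπ1 hπ using fun i : Fin l.length => (h2 _ (h3 i)).2.2
    refine ⟨N, M, l.length, fun i => (⟨l[i].1, (h2 _ (h3 i)).1⟩,
      ⟨l[i].2.1, (h2 _ (h3 i)).2.1⟩, π i), List.length_pos_iff.2 h1, hπ1, ?_, ?_⟩
    · intro i j hij
      simp only [Prod.mk.injEq, Fin.mk.injEq] at hij
      have hm : ∀ i : Fin l.length, (l[i], (i : ℕ)) ∈ l.zipIdx := by
        intro i
        rw [List.mem_zipIdx_iff_getElem?]
        simp
      rcases h4 _ (hm i) _ (hm j) with h5 | h5 | h5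
      · exact Fin.ext h5
      · exact absurd hij.1 h5
      · exact absurd hij.2 h5
    · unfold raw
      refine Prod.ext rfl (Prod.ext rfl ?_)
      simp only
      refine List.ext_getElem (by simp) fun i hi hi' => ?_
      rw [List.getElem_ofFn]
      refine Prod.ext rfl (Prod.ext rfl ?_)
      exact hπ ⟨i, hi⟩
  · rintro ⟨N', M', k, g, hk, hfib, hsim, h⟩
    unfold raw at h
    simp only [Prod.mk.injEq] at h
    obtain ⟨rfl, rfl, rfl⟩ := h
    refine ⟨?_, ?_, ?_⟩
    · intro h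
      rw [List.ofFn_eq_nil_iff] at h
      omega
    · intro e he
      rw [List.mem_ofFn] at he
      obtain ⟨i, rfl⟩ := he
      exact ⟨(g i).1.2, (g i).2.1.2, (g i).2.2, hfib i, rfl⟩
    · rintro ⟨e, i⟩ hi ⟨e', j⟩ hj
      rw [List.mem_zipIdx_iff_getElem?, List.getElem?_eq_some_iff] at hi hj
      obtain ⟨hi, hi'⟩ := hi
      obtain ⟨hj, hj'⟩ := hj
      simp only [List.length_ofFn] at hi hj
      rw [List.getElem_ofFn] at hi' hj'
      by_contra hcon
      push Not at hcon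
      obtain ⟨h1, h2, h3⟩ := hcon
      refine h1 ?_
      simp only at hi' hj' h2 h3
      rw [← hi', ← hj'] at h2 h3
      have h4 := @hsim ⟨i, hi⟩ ⟨j, hj⟩ (Prod.ext (Fin.ext h2) (Fin.ext h3))
      exact congrArg Fin.val h4

/-- The game with a given code, or the trivial game. -/
noncomputable def norm (d B : ℕ) (x : List Bool) : Raw :=
  if check d (d * B) B ((unbits Raw x).getD (trivD d B)) = true then
    (unbits Raw x).getD (trivD d B) else trivD d B

theorem norm_valid (d B : ℕ) (x : List Bool) : Valid d (d * B) B (norm d B x) := by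
  unfold norm
  split_ifs with h
  · exact check_iff.1 h
  · exact trivD_valid d B

theorem norm_bits {r : Raw} (h : Valid d (d * B) B r) : norm d B (bits r) = r := by
  unfold norm
  rw [unbits_bits, Option.getD_some, if_pos (check_iff.2 h)]

theorem poly_check (d A B : ℕ) : Poly (check d A B) := by
  unfold check
  fun_prop

theorem poly_norm (d B : ℕ) : Poly (norm d B) := by
  have h1 : Poly fun x : List Bool => (unbits Raw x).getD (trivD d B) :=
    NPC.Poly.optGetD poly_unbits (NPC.Poly.const _)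
  unfold norm
  exact NPC.Poly.ite (((poly_check d (d * B) B).comp h1).congr fun x => by simp) h1
    (NPC.Poly.const _)

/-- The codes of the `d`-to-1 games with `d R` and `R` labels, simple, with at least one edge, of
value one. -/
def Yes (d R : ℕ) : Set (List Bool) :=
  {x | ∃ (N M k : ℕ) (g : PGame N M (d * R) R k), 0 < k ∧ Fib d g ∧ Simple g ∧ Full g ∧
    x = code g}

/-- The codes of the `d`-to-1 games with `d R` and `R` labels, simple, with at least one edge, of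
value less than `δ`. -/
def No (δ : ℝ) (d R : ℕ) : Set (List Bool) :=
  {x | ∃ (N M k : ℕ) (g : PGame N M (d * R) R k), 0 < k ∧ Fib d g ∧ Simple g ∧ Below δ g ∧
    x = code g}

theorem mem_Yes {R : ℕ} {x : List Bool} : x ∈ Yes d R ↔ ∃ r, YesR d (d * R) R r ∧ x = bits r := by
  constructor
  · rintro ⟨N, M, k, g, h1, h2, h3, h4, h5⟩
    exact ⟨raw g, ⟨N, M, k, g, h1, h2, h3, h4, rfl⟩, h5⟩
  · rintro ⟨r, ⟨N, M, k, g, h1, h2, h3, h4, rfl⟩, h5⟩
    exact ⟨N, M, k, g, h1, h2, h3, h4, h5⟩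

theorem mem_No {δ : ℝ} {R : ℕ} {x : List Bool} :
    x ∈ No δ d R ↔ ∃ r, NoR δ d (d * R) R r ∧ x = bits r := by
  constructor
  · rintro ⟨N, M, k, g, h1, h2, h3, h4, h5⟩
    exact ⟨raw g, ⟨N, M, k, g, h1, h2, h3, h4, rfl⟩, h5⟩
  · rintro ⟨r, ⟨N, M, k, g, h1, h2, h3, h4, rfl⟩, h5⟩
    exact ⟨N, M, k, g, h1, h2, h3, h4, h5⟩

theorem norm_yes {R : ℕ} {x : List Bool} (h : x ∈ Yes d R) : YesR d (d * R) R (norm d R x) := by
  obtain ⟨r, h1, rfl⟩ := mem_Yes.1 h
  rw [norm_bits h1.valid]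
  exact h1

theorem norm_no {δ : ℝ} {R : ℕ} {x : List Bool} (h : x ∈ No δ d R) :
    NoR δ d (d * R) R (norm d R x) := by
  obtain ⟨r, h1, rfl⟩ := mem_No.1 h
  rw [norm_bits h1.valid]
  exact h1

theorem raw_inj {g : PGame N M A B k} {g' : PGame N' M' A B k'} (h : raw g = raw g') :
    ∃ (hN : N = N') (hM : M = M') (hk : k = k'), g' = hN ▸ hM ▸ hk ▸ g := by
  unfold raw at h
  simp only [Prod.mk.injEq] at h
  obtain ⟨rfl, rfl, hr⟩ := h
  have hkk : k = k' := by
    have := congrArg List.length hr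
    simpa using this
  subst hkk
  have h3 := List.ofFn_injective hr
  refine ⟨rfl, rfl, rfl, ?_⟩
  symm
  funext e
  have h4 := congrFun h3 e
  simp only [Prod.mk.injEq] at h4
  refine Prod.ext (Fin.ext h4.1) (Prod.ext (Fin.ext h4.2.1) (funext fun a => ?_))
  have h5 := congrFun (List.ofFn_injective h4.2.2) a
  exact Fin.ext h5

theorem yes_no {δ : ℝ} (h : δ ≤ 1) {r : Raw} (h1 : YesR d A B r) (h2 : NoR δ d A B r) :
    False := by
  obtain ⟨N, M, k, g, hk, -, -, ⟨L, R, hv⟩, rfl⟩ := h1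
  obtain ⟨N', M', k', g', hk', -, -, hv', hr⟩ := h2
  obtain ⟨rfl, rfl, rfl, rfl⟩ := raw_inj hr
  have h6 := hv' L R
  have h7 : (0 : ℝ) < k := by exact_mod_cast hk
  have h8 : sat g' L R = univ := by
    unfold sat
    rw [filter_true_of_mem]
    exact fun e _ => hv e
  have h9 : ((sat g' L R).card : ℝ) < δ * k := h6
  rw [h8, card_univ, Fintype.card_fin] at h9
  nlinarith

theorem disjoint {δ : ℝ} (h : δ ≤ 1) {R : ℕ} : Disjoint (Yes d R) (No δ d R) := by
  rw [Set.disjoint_left]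
  intro x h1 h2
  obtain ⟨r, h1', rfl⟩ := mem_Yes.1 h1
  obtain ⟨r', h2', h3⟩ := mem_No.1 h2
  rw [bits_injective h3] at h1'
  exact yes_no h h1' h2'

end Pool.Agent.U16.DTO
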