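import Pool.Agent.U16.DTO.Game
import Pool.Agent.W888.DX.Main

/-!
# Branch-and-cut proofs for combined projection games
-/

set_option autoImplicit false
set_option linter.unusedSectionVars false

namespace Pool.Agent.U16.DTO

open Finset Matrix Pool.Agent.W888.DX Pool.Agent.H562R2

section pull

variable {V W E A B V' W' E' A' B' : Type} [Fintype V] [Fintype W] [Fintype E] [Fintype A]
  [Fintype B] [Fintype V'] [Fintype W'] [Fintype E'] [Fintype A'] [Fintype B'] [DecidableEq E]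

/-- Vectors for labels extended by zero. -/
noncomputable def ex {X Y T : Type} [Zero T] (ι : X → Y) (f : X → T) (y : Y) : T := by
  classical exact
  if h : ∃ x, ι x = y then f h.choose else 0

theorem ex_ι {X Y T : Type} [Zero T] {ι : X → Y} (hι : Function.Injective ι) (f : X → T) (x : X) :
    ex ι f (ι x) = f x := by
  have h : ∃ b, ι b = ι x := ⟨x, rfl⟩
  unfold ex
  rw [dif_pos h, hι h.choose_spec]

theorem ex_not {X Y T : Type} [Zero T] {ι : X → Y} (f : X → T) {y : Y} (h : ¬ ∃ x, ι x = y) :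
    ex ι f y = 0 := by
  unfold ex
  rw [dif_neg h]

/-- A game whose solutions contain those of another game. -/
structure Over (v : E → V) (w : E → W) (π : E → A → B) (v' : E' → V') (w' : E' → W')
    (π' : E' → A' → B') where
  pV : V' → V
  pW : W' → W
  pE : E' → E
  ι : A → A'
  κ : B → B'
  injA : Function.Injective ι
  injB : Function.Injective κ
  hv : ∀ e, pV (v' e) = v (pE e)
  hw : ∀ e, pW (w' e) = w (pE e)
  hπ : ∀ e a, π' e (ι a) = κ (π (pE e) a)
  c : ℕ
  hc : ∀ e, (univ.filter fun e' => pE e' = e).card = c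

namespace Over

variable {v : E → V} {w : E → W} {π : E → A → B} {v' : E' → V'} {w' : E' → W'}
  {π' : E' → A' → B'} (O : Over v w π v' w' π')

/-- Extension by zero. -/
noncomputable def exf (f : (V × B) ⊕ (W × A) → ℝ) : (V' × B') ⊕ (W' × A') → ℝ :=
  Sum.elim (fun p => ex O.κ (fun b => f (Sum.inl (O.pV p.1, b))) p.2)
    (fun p => ex O.ι (fun a => f (Sum.inr (O.pW p.1, a))) p.2)

/-- Extension as a linear map. -/
noncomputable def Φ : ((V × B) ⊕ (W × A) → ℝ) →ₗ[ℝ] ((V' × B') ⊕ (W' × A') → ℝ) where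
  toFun f := O.exf f
  map_add' f g := by
    funext p
    rcases p with ⟨i, b⟩ | ⟨i, a⟩
    · simp only [exf, Pi.add_apply, Sum.elim_inl]
      by_cases h : ∃ x, O.κ x = b
      · obtain ⟨x, rfl⟩ := h
        simp only [ex_ι O.injB]
      · simp only [ex_not _ h, add_zero]
    · simp only [exf, Pi.add_apply, Sum.elim_inr]
      by_cases h : ∃ x, O.ι x = a
      · obtain ⟨x, rfl⟩ := h
        simp only [ex_ι O.injA]
      · simp only [ex_not _ h, add_zero]
  map_smul' c f := by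
    funext p
    rcases p with ⟨i, b⟩ | ⟨i, a⟩
    · simp only [exf, Pi.smul_apply, Sum.elim_inl, RingHom.id_apply]
      by_cases h : ∃ x, O.κ x = b
      · obtain ⟨x, rfl⟩ := h
        simp only [ex_ι O.injB]
      · simp only [ex_not _ h, smul_zero]
    · simp only [exf, Pi.smul_apply, Sum.elim_inr, RingHom.id_apply]
      by_cases h : ∃ x, O.ι x = a
      · obtain ⟨x, rfl⟩ := h
        simp only [ex_ι O.injA]
      · simp only [ex_not _ h, smul_zero]

theorem sum_pE (f : E → ℝ) : ∑ e', f (O.pE e') = O.c * ∑ e, f e := by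
  rw [← Finset.sum_fiberwise (s := univ) (g := O.pE) (f := fun e' => f (O.pE e')),
    Finset.mul_sum]
  refine Finset.sum_congr rfl fun e _ => ?_
  rw [Finset.sum_congr rfl (g := fun _ => f e), Finset.sum_const, O.hc, nsmul_eq_mul]
  intro e' he'
  rw [(mem_filter.1 he').2]

theorem card_E : (Fintype.card E' : ℝ) = O.c * Fintype.card E := by
  have h := O.sum_pE fun _ => 1
  rw [Finset.sum_const, Finset.sum_const, Finset.card_univ, Finset.card_univ, nsmul_eq_mul,
    nsmul_eq_mul, mul_one, mul_one] at h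
  exact h

theorem sum_ex {X Y : Type} [Fintype X] [Fintype Y] {ι : X → Y} (hι : Function.Injective ι)
    {T : Type} [AddCommMonoid T] (f : X → T) : ∑ y, ex ι f y = ∑ x, f x := by
  symm
  exact Fintype.sum_of_injective ι hι _ _
    (fun y hy => ex_not f (fun ⟨x, hx⟩ => hy ⟨x, hx⟩)) fun x => (ex_ι hι f x).symm

theorem mem_relax {ε : ℝ} {μ : (V × B) ⊕ (W × A) → ℝ} (h : μ ∈ Relax v w π ε) :
    O.Φ μ ∈ Relax v' w' π' ε := by
  classical
  obtain ⟨D, iD, x, y, ⟨z, hz, hx, hy, hxo, hyo, hpos⟩, h5, h6, h7⟩ := h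
  obtain ⟨x', hx'⟩ : ∃ x' : W' → A' → D → ℝ, x' = fun i => ex O.ι (x (O.pW i)) := ⟨_, rfl⟩
  obtain ⟨y', hy'⟩ : ∃ y' : V' → B' → D → ℝ, y' = fun i => ex O.κ (y (O.pV i)) := ⟨_, rfl⟩
  have hxa : ∀ i a, x' i (O.ι a) = x (O.pW i) a := fun i a => by
    rw [hx']
    exact ex_ι O.injA _ _
  have hxn : ∀ i a', (¬ ∃ a, O.ι a = a') → x' i a' = 0 := fun i a' h => by
    rw [hx']
    exact ex_not _ h
  have hya : ∀ i b, y' i (O.κ b) = y (O.pV i) b := fun i b => by
    rw [hy']
    exact ex_ι O.injB _ _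
  have hyn : ∀ i b', (¬ ∃ b, O.κ b = b') → y' i b' = 0 := fun i b' h => by
    rw [hy']
    exact ex_not _ h
  refine ⟨D, iD, x', y', ⟨z, hz, fun i => ?_, fun i => ?_, fun i a a' haa => ?_,
    fun i b b' hbb => ?_, fun e a b => ?_⟩, fun i b => ?_, fun i a => ?_, ?_⟩
  · rw [← hx (O.pW i), hx']
    exact sum_ex O.injA _
  · rw [← hy (O.pV i), hy']
    exact sum_ex O.injB _
  · by_cases h : ∃ c, O.ι c = a
    · obtain ⟨c, rfl⟩ := h
      by_cases h' : ∃ c', O.ι c' = a'
      · obtain ⟨c', rfl⟩ := h'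
        rw [hxa, hxa]
        exact hxo _ _ _ fun hcc => haa (by rw [hcc])
      · rw [hxn _ _ h', dotProduct_zero]
    · rw [hxn _ _ h, zero_dotProduct]
  · by_cases h : ∃ c, O.κ c = b
    · obtain ⟨c, rfl⟩ := h
      by_cases h' : ∃ c', O.κ c' = b'
      · obtain ⟨c', rfl⟩ := h'
        rw [hya, hya]
        exact hyo _ _ _ fun hcc => hbb (by rw [hcc])
      · rw [hyn _ _ h', dotProduct_zero]
    · rw [hyn _ _ h, zero_dotProduct]
  · by_cases h : ∃ c, O.ι c = a
    · obtain ⟨c, rfl⟩ := h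
      by_cases h' : ∃ c', O.κ c' = b
      · obtain ⟨c', rfl⟩ := h'
        rw [hxa, hya, O.hv, O.hw]
        exact hpos _ _ _
      · rw [hyn _ _ h', dotProduct_zero]
    · rw [hxn _ _ h, zero_dotProduct]
  · show O.exf μ (Sum.inl (i, b)) = _
    unfold exf
    rw [Sum.elim_inl]
    by_cases h : ∃ c, O.κ c = b
    · obtain ⟨c, rfl⟩ := h
      rw [hya, ex_ι O.injB]
      exact h5 _ _
    · rw [hyn _ _ h, ex_not _ h, zero_dotProduct]
  · show O.exf μ (Sum.inr (i, a)) = _
    unfold exf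
    rw [Sum.elim_inr]
    by_cases h : ∃ c, O.ι c = a
    · obtain ⟨c, rfl⟩ := h
      rw [hxa, ex_ι O.injA]
      exact h6 _ _
    · rw [hxn _ _ h, ex_not _ h, zero_dotProduct]
  · have h8 : ∀ e', ∑ a', x' (w' e') a' ⬝ᵥ y' (v' e') (π' e' a') =
        ∑ a, x (w (O.pE e')) a ⬝ᵥ y (v (O.pE e')) (π (O.pE e') a) := by
      intro e'
      symm
      refine Fintype.sum_of_injective O.ι O.injA _ _ (fun a' ha' => ?_) fun a => ?_
      · rw [hxn _ _ (fun ⟨a, ha⟩ => ha' ⟨a, ha⟩), zero_dotProduct]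
      · rw [O.hπ, hxa, hya, O.hv, O.hw]
    simp only [h8]
    rw [O.sum_pE fun e => ∑ a, x (w e) a ⬝ᵥ y (v e) (π e a), O.card_E]
    calc (1 - ε) * (O.c * Fintype.card E : ℝ) = O.c * ((1 - ε) * Fintype.card E) := by ring
      _ ≤ _ := mul_le_mul_of_nonneg_left h7 (Nat.cast_nonneg _)

theorem Φ_lab (L : V → B) (M : W → A) :
    O.Φ (lab L M) = lab (fun i => O.κ (L (O.pV i))) fun i => O.ι (M (O.pW i)) := by
  classical
  funext p
  rcases p with ⟨i, b⟩ | ⟨i, a⟩
  · show O.exf (lab L M) (Sum.inl (i, b)) = _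
    unfold exf
    rw [Sum.elim_inl, lab_inl]
    by_cases h : ∃ c, O.κ c = b
    · obtain ⟨c, rfl⟩ := h
      rw [ex_ι O.injB, lab_inl]
      exact if_congr O.injB.eq_iff.symm rfl rfl
    · rw [ex_not _ h, if_neg]
      exact fun h' => h ⟨_, h'⟩
  · show O.exf (lab L M) (Sum.inr (i, a)) = _
    unfold exf
    rw [Sum.elim_inr, lab_inr]
    by_cases h : ∃ c, O.ι c = a
    · obtain ⟨c, rfl⟩ := h
      rw [ex_ι O.injA, lab_inr]
      exact if_congr O.injA.eq_iff.symm rfl rfl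
    · rw [ex_not _ h, if_neg]
      exact fun h' => h ⟨_, h'⟩

include O in
/-- Covers by convex sets for the large game give such covers for the small one. -/
theorem cover {ε : ℝ} (F : List (Set ((V' × B') ⊕ (W' × A') → ℝ))) (hconv : ∀ C ∈ F, Convex ℝ C)
    (hmiss : ∀ C ∈ F, ∀ μ ∈ C, μ ∉ Relax v' w' π' ε)
    (hcov : ∀ (L : V' → B') (M : W' → A'), ∃ C ∈ F, lab L M ∈ C) :
    ∃ F0 : List (Set ((V × B) ⊕ (W × A) → ℝ)), F0.length = F.length ∧ (∀ C ∈ F0, Convex ℝ C) ∧
      (∀ C ∈ F0, ∀ μ ∈ C, μ ∉ Relax v w π ε) ∧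
      ∀ (L : V → B) (M : W → A), ∃ C ∈ F0, lab L M ∈ C := by
  refine ⟨F.map fun C => O.Φ ⁻¹' C, List.length_map _, ?_, ?_, ?_⟩
  · intro C hC
    obtain ⟨C', hC', rfl⟩ := List.mem_map.1 hC
    exact (hconv C' hC').linear_preimage O.Φ
  · intro C hC μ hμ hR
    obtain ⟨C', hC', rfl⟩ := List.mem_map.1 hC
    exact hmiss C' hC' _ hμ (O.mem_relax hR)
  · intro L M
    obtain ⟨C, hC, hl⟩ := hcov (fun i => O.κ (L (O.pV i))) fun i => O.ι (M (O.pW i))
    refine ⟨O.Φ ⁻¹' C, List.mem_map.2 ⟨C, hC, rfl⟩, ?_⟩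
    show O.Φ (lab L M) ∈ C
    rw [O.Φ_lab]
    exact hl

end Over

end pull

/-- Games of perfect semidefinite value for which covers by convex sets without points of the
relaxation need many sets. -/
theorem dx_base (j : ℕ) (hj : 1 ≤ j) (ε δ : ℝ) (hε0 : 0 < ε) (hε1 : ε ≤ 1) (hδ : 0 < δ) :
    ∃ (V W E A B : Type) (_ : Fintype V) (_ : Fintype W) (_ : Fintype E) (_ : Nonempty E)
      (_ : Fintype A) (_ : Fintype B) (_ : DecidableEq E) (_ : DecidableEq B) (v : E → V)
      (w : E → W) (π : E → A → B), Fintype.card A = 2 ^ j * Fintype.card B ∧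
      (∀ e b, (univ.filter fun a => π e a = b).card = 2 ^ j) ∧
      (∀ (M : W → A) (L : V → B), ((univ.filter fun e =>
          π e (M (w e)) = L (v e)).card : ℝ) ≤ δ * Fintype.card E) ∧
      (∀ m : ℕ, (Relax (fun e : E × Fin m => (v e.1, e.2)) (fun e : E × Fin m => (w e.1, e.2))
          (fun e => π e.1) 0).Nonempty) ∧
      ∃ c : ℝ, 0 < c ∧ ∀ m : ℕ, ∀ F : List (Set (((V × Fin m) × B) ⊕ ((W × Fin m) × A) → ℝ)),
        (∀ C ∈ F, Convex ℝ C) →
        (∀ C ∈ F, ∀ μ ∈ C, μ ∉ Relax (fun e : E × Fin m => (v e.1, e.2))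
          (fun e : E × Fin m => (w e.1, e.2)) (fun e => π e.1) ε) →
        (∀ (L : V × Fin m → B) (M : W × Fin m → A), ∃ C ∈ F, lab L M ∈ C) →
        Real.exp (c * m) ≤ F.length := by
  classical
  obtain ⟨m, hm⟩ := small_value j hj δ hδ
  obtain ⟨E0, hE0⟩ : ∃ E0 : ℕ, E0 = Fintype.card (DE j m) := ⟨_, rfl⟩
  have hE0pos : 0 < E0 := by rw [hE0]; exact Fintype.card_pos
  have hE0r : (0 : ℝ) < E0 := by exact_mod_cast hE0pos
  have hB : Fintype.card (Gam m) = 2 ^ m := by
    rw [Fintype.card_fun, Fintype.card_bool, Fintype.card_fin]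
  have hA : Fintype.card (Gam (j + m)) = 2 ^ j * 2 ^ m := by
    rw [Fintype.card_fun, Fintype.card_bool, Fintype.card_fin, pow_add]
  have hBr : (Fintype.card (Gam m) : ℝ) = 2 ^ m := by rw [hB]; push_cast; rfl
  have hAr : (Fintype.card (Gam (j + m)) : ℝ) = 2 ^ (j + m) := by
    rw [hA, pow_add]; push_cast; rfl
  have hB0 : (0 : ℝ) < Fintype.card (Gam m) := by rw [hBr]; positivity
  have hA0 : (0 : ℝ) < Fintype.card (Gam (j + m)) := by rw [hAr]; positivity
  have hfx : ∀ f : Fn (j + m), Fam (fun S => if S = 0 then (1 : ℝ) else 0) (xv f) := fun f =>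
    ⟨zfun_unit, xv_sum f, xv_orth f⟩
  have hunif : ∀ c : ℕ, (Sum.elim (fun _ => 1 / (Fintype.card (Gam m) : ℝ))
      (fun _ => 1 / (Fintype.card (Gam (j + m)) : ℝ)) :
      (((Mx j m × Fn m) × Fin c) × Gam m) ⊕ ((Fn (j + m) × Fin c) × Gam (j + m)) → ℝ) ∈
      Relax (fun e : DE j m × Fin c => (dt e.1, e.2)) (fun e : DE j m × Fin c => (ds e.1, e.2))
        (fun e => dp e.1) 0 := by
    intro c
    refine ⟨Gam (j + m), inferInstance, fun i a => xv i.1 a, fun i b => dyv i.1 b,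
      ⟨fun S => if S = 0 then (1 : ℝ) else 0, zfun_unit, fun i => xv_sum i.1,
        fun i => dyv_sum i.1, fun i => xv_orth i.1, fun i => dyv_orth i.1, ?_⟩, ?_, ?_, ?_⟩
    · intro e a b
      beta_reduce
      rw [perf_dot (hfx (ds e.1)) (dp e.1) (dperfect_edge e.1)]
      split_ifs
      · exact dot_self_nonneg _
      · exact le_refl _
    · intro i b
      rw [Sum.elim_inl, dyv_self, hBr]
    · intro i a
      rw [Sum.elim_inr, xv_self, hAr]
    · have h1 : ∀ e : DE j m × Fin c,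
          ∑ a, xv (ds e.1) a ⬝ᵥ dyv (dt e.1) (dp e.1 a) = 1 := by
        intro e
        rw [← (hfx (ds e.1)).sum_norm]
        refine Finset.sum_congr rfl fun a _ => ?_
        rw [perf_dot (hfx (ds e.1)) (dp e.1) (dperfect_edge e.1), if_pos rfl]
      simp only [h1]
      rw [Finset.sum_const, Finset.card_univ, nsmul_eq_mul, mul_one, sub_zero, one_mul]
  refine ⟨Mx j m × Fn m, Fn (j + m), DE j m, Gam (j + m), Gam m, inferInstance, inferInstance,
    inferInstance, inferInstance, inferInstance, inferInstance, inferInstance, inferInstance,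
    dt, ds, dp, by rw [hA, hB], fun e b => ?_, fun M L => hm M L, fun c => ⟨_, hunif c⟩, ?_⟩
  · refine Eq.trans ?_ (dp_card e b)
    congr
  · refine ⟨ε ^ 3 * E0 / (32 * (Fintype.card (Gam (j + m)) * Fintype.card (Gam m)) * E0),
      by positivity, fun c F h1 h2 h3 => ?_⟩
    have hdv : ∀ u, (univ.filter fun e : DE j m × Fin c => (dt e.1, e.2) = u).card ≤ E0 := by
      intro u
      rw [hE0]
      refine le_trans (le_of_eq ?_) (copy_deg dt u)
      congr
    have hdw : ∀ u, (univ.filter fun e : DE j m × Fin c => (ds e.1, e.2) = u).card ≤ E0 := by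
      intro u
      rw [hE0]
      refine le_trans (le_of_eq ?_) (copy_deg ds u)
      congr
    have h4 := law_cover _ _ _ E0 hE0pos hdv hdw 0 ε le_rfl hε0 hε1 (hunif c) F h1
      (by rw [zero_add]; exact h2) h3
    refine le_trans (le_of_eq ?_) h4
    congr 1
    have hcard : (Fintype.card (DE j m × Fin c) : ℝ) = E0 * c := by
      rw [Fintype.card_prod, Fintype.card_fin, hE0]
      push_cast
      rfl
    rw [hcard]
    ring

end Pool.Agent.U16.DTO
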