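import Pool.Agent.U16.DTO.Prom

/-!
# Truth-table reductions to projection games
-/

set_option autoImplicit false
set_option linter.unusedSectionVars false

namespace Pool.Agent.U16.DTO

open Finset Pool.Agent.NPC Pool.Agent.NPC.R671
open Pool.Agent.U16.UGO (card_pairs card_pairs' ofFn_prod ofFn_flatMap orR poly_orR copR poly_copR)
open Pool.Agent.U16.UGT (Raw andR poly_andR andF orF poly_andF poly_orF triv Red PosTT poly_head subs)

variable {N M A B k N' M' A' B' k' d d' : ℕ}

/-! ### The incidence game -/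

/-- The game with the vertices `i` and `j` in `{0, …, p - 1}` and the constraints
`a ↦ (a + i j) mod p`. -/
def inc (p : ℕ) (hp : 0 < p) : PGame p p p p (p * p) := fun e =>
  ((finProdFinEquiv.symm e).1, (finProdFinEquiv.symm e).2, fun a =>
    ⟨(a + (finProdFinEquiv.symm e).1 * (finProdFinEquiv.symm e).2) % p, Nat.mod_lt _ hp⟩)

theorem inc_fib (p : ℕ) (hp : 0 < p) : Fib 1 (inc p hp) := by
  intro e b
  rw [card_le_one]
  intro a ha a' ha'
  rw [mem_filter] at ha ha'
  have h1 := congrArg Fin.val (ha.2.trans ha'.2.symm)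
  unfold inc at h1
  simp only at h1
  have h2 : (a : ℕ) ≡ a' [MOD p] := Nat.ModEq.add_right_cancel' _ h1
  have h3 := Nat.ModEq.eq_of_lt_of_lt h2 a.2 a'.2
  exact Fin.ext h3

theorem inc_simple (p : ℕ) (hp : 0 < p) : Simple (inc p hp) := by
  intro e e' h
  exact finProdFinEquiv.symm.injective h

theorem inc_pair {p : ℕ} [Fact p.Prime] {L R : Fin p → Fin p} {i i' j j' : Fin p} (hj : j ≠ j')
    (h1 : ((L i : ℕ) + i * j) % p = R j) (h2 : ((L i : ℕ) + i * j') % p = R j')
    (h1' : ((L i' : ℕ) + i' * j) % p = R j) (h2' : ((L i' : ℕ) + i' * j') % p = R j') : i = i' := by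
  have hc : ∀ {x y : ℕ}, x % p = y → (x : ZMod p) = (y : ZMod p) := by
    intro x y h
    rw [← h, ZMod.natCast_mod]
  have e1 := hc h1
  have e2 := hc h2
  have e3 := hc h1'
  have e4 := hc h2'
  push_cast at e1 e2 e3 e4
  have h5 : ((i : ℕ) - (i' : ℕ) : ZMod p) * ((j : ℕ) - (j' : ℕ)) = 0 := by
    linear_combination e1 - e2 - e3 + e4
  rcases mul_eq_zero.1 h5 with h6 | h6
  · rw [sub_eq_zero, ZMod.natCast_eq_natCast_iff] at h6
    exact Fin.ext (Nat.ModEq.eq_of_lt_of_lt h6 i.2 i'.2)
  · rw [sub_eq_zero, ZMod.natCast_eq_natCast_iff] at h6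
    exact absurd (Fin.ext (Nat.ModEq.eq_of_lt_of_lt h6 j.2 j'.2)) hj

theorem inc_below (p : ℕ) [Fact p.Prime] (hp : 0 < p) {δ : ℝ} (hδ : 0 < δ)
    (h : 1 + δ ≤ δ ^ 2 * p) : Below δ (inc p hp) := by
  classical
  intro L R
  obtain ⟨T, hT⟩ : ∃ T : Fin p → Finset (Fin p), T = fun i => univ.filter fun j : Fin p =>
      ((L i : ℕ) + i * j) % p = R j := ⟨_, rfl⟩
  have hcard : (sat (inc p hp) L R).card = ∑ i, (T i).card := by
    unfold sat
    rw [card_pairs']
    refine Finset.sum_congr rfl fun i _ => ?_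
    congr 1
    ext j
    rw [hT]
    simp only [mem_filter, mem_univ, true_and]
    unfold inc
    simp only [Equiv.symm_apply_apply]
    rw [Fin.ext_iff]
  have hdis : ∀ i ∈ (univ : Finset (Fin p)), ∀ i' ∈ (univ : Finset (Fin p)), i ≠ i' →
      Disjoint (T i).offDiag (T i').offDiag := by
    intro i _ i' _ hii
    rw [Finset.disjoint_left]
    rintro ⟨j, j'⟩ h1 h2
    rw [mem_offDiag, hT] at h1 h2
    simp only [mem_filter, mem_univ, true_and] at h1 h2
    exact hii (inc_pair (L := L) (R := R) h1.2.2 h1.1 h1.2.1 h2.1 h2.2.1)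
  have h1 : ∑ i, (T i).offDiag.card ≤ p * p - p := by
    rw [← card_biUnion hdis]
    have h2 : (univ.biUnion fun i => (T i).offDiag) ⊆ (univ : Finset (Fin p)).offDiag := by
      intro x hx
      rw [mem_biUnion] at hx
      obtain ⟨i, -, hi⟩ := hx
      rw [mem_offDiag] at hi ⊢
      exact ⟨mem_univ _, mem_univ _, hi.2.2⟩
    refine (card_le_card h2).trans ?_
    rw [offDiag_card, card_univ, Fintype.card_fin]
  have h2 : ∑ i, ((T i).card : ℝ) ^ 2 ≤ (p : ℝ) ^ 2 - p + ∑ i, ((T i).card : ℝ) := by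
    have h3 : ∀ i, ((T i).card : ℝ) ^ 2 = ((T i).offDiag.card : ℝ) + (T i).card := by
      intro i
      rw [offDiag_card, Nat.cast_sub (Nat.le_mul_self _)]
      push_cast
      ring
    simp only [h3]
    rw [Finset.sum_add_distrib]
    have h4 : ((∑ i, (T i).offDiag.card : ℕ) : ℝ) ≤ ((p * p - p : ℕ) : ℝ) := by
      exact_mod_cast h1
    rw [Nat.cast_sub (Nat.le_mul_self _)] at h4
    push_cast at h4
    nlinarith
  have h3 : (∑ i, ((T i).card : ℝ)) ^ 2 ≤ p * ∑ i, ((T i).card : ℝ) ^ 2 := by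
    have := sq_sum_le_card_mul_sum_sq (s := (univ : Finset (Fin p)))
      (f := fun i => ((T i).card : ℝ))
    rwa [card_univ, Fintype.card_fin] at this
  have h4 : ((sat (inc p hp) L R).card : ℝ) = ∑ i, ((T i).card : ℝ) := by
    rw [hcard]
    push_cast
    rfl
  obtain ⟨s, hs⟩ : ∃ s : ℝ, s = ∑ i, ((T i).card : ℝ) := ⟨_, rfl⟩
  rw [h4, ← hs]
  rw [← hs] at h2 h3
  have hpR : (0 : ℝ) < p := by exact_mod_cast hp
  by_contra hcon
  push Not at hcon
  push_cast at hcon
  have h5 : s * (s - p) ≤ p ^ 3 - p ^ 2 := by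
    have h6 : (p : ℝ) * ∑ i, ((T i).card : ℝ) ^ 2 ≤ p * ((p : ℝ) ^ 2 - p + s) :=
      mul_le_mul_of_nonneg_left h2 hpR.le
    nlinarith
  have h6 : 0 < δ * p - 1 := by
    have h7 : 1 < δ * (δ * p) := by nlinarith
    by_contra h8
    push Not at h8
    nlinarith
  have h7 : p * (δ * p - 1) ≤ s - p := by nlinarith
  have h8 : (δ * (p * p)) * (p * (δ * p - 1)) ≤ s * (s - p) :=
    mul_le_mul hcon h7 (by positivity) (by
      have : 0 ≤ δ * ((p : ℝ) * p) := by positivity
      linarith)
  have h9 : (p : ℝ) ^ 3 ≤ (δ * (p * p)) * (p * (δ * p - 1)) := by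
    have h10 : (1 : ℝ) ≤ δ * (δ * p - 1) := by nlinarith
    have h11 : (δ * ((p : ℝ) * p)) * (p * (δ * p - 1)) = p ^ 3 * (δ * (δ * p - 1)) := by ring
    rw [h11]
    have h12 : (0 : ℝ) < p ^ 3 := by positivity
    nlinarith
  have h10 : (0 : ℝ) < p ^ 2 := by positivity
  linarith

theorem inc_no (p : ℕ) [Fact p.Prime] (hp : 0 < p) {δ : ℝ} (hδ : 0 < δ)
    (h : 1 + δ ≤ δ ^ 2 * p) : NoR δ 1 p p (raw (inc p hp)) :=
  ⟨p, p, p * p, _, Nat.mul_pos hp hp, inc_fib p hp, inc_simple p hp, inc_below p hp hδ h, rfl⟩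

theorem exists_prime {δ : ℝ} (hδ : 0 < δ) : ∃ p : ℕ, p.Prime ∧ 1 + δ ≤ δ ^ 2 * p := by
  obtain ⟨n, hn⟩ := exists_nat_ge ((1 + δ) / δ ^ 2)
  obtain ⟨p, hp, hp'⟩ := Nat.exists_infinite_primes n
  refine ⟨p, hp', ?_⟩
  have h1 : (0 : ℝ) < δ ^ 2 := by positivity
  rw [div_le_iff₀ h1] at hn
  have h2 : (n : ℝ) ≤ p := by exact_mod_cast hp
  nlinarith

/-! ### Positive truth-table reductions -/

section reduction

variable {k : ℕ} (d : ℕ) (R : Fin k → ℕ) (p : ℕ) (hp : 0 < p)
  (f : Fin k → List Bool → List Bool) (φ : List Bool → (Fin k → Bool) → Bool)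

/-- The game of a query, if it belongs to the set `S`. -/
noncomputable def comp (S : Fin k → Bool) (x : List Bool) (i : Fin k) : Raw :=
  if S i = true then norm d (R i) (f i x) else trivD d (R i)

theorem comp_valid (S : Fin k → Bool) (x : List Bool) (i : Fin k) :
    Valid d (d * R i) (R i) (comp d R f S x i) := by
  unfold comp
  split_ifs
  · exact norm_valid _ _ _
  · exact trivD_valid _ _

/-- The conjunction of the games of the queries in the set `S`. -/
noncomputable def term (S : Fin k → Bool) (x : List Bool) : Raw :=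
  if φ x S = true then andR p (andF k R (comp d R f S x)) (triv p)
  else andR p (trivD (d ^ k) (∏ i, R i)) (raw (inc p hp))

/-- The disjunction of the conjunctions. -/
noncomputable def total (x : List Bool) : Raw :=
  orF ((∏ i, R i) * p) (2 ^ k) fun j => term d R p hp f φ (subs k j) x

theorem prod_eq : ∏ i, d * R i = d ^ k * ∏ i, R i := by
  rw [Finset.prod_mul_distrib, Finset.prod_const, card_univ, Fintype.card_fin]

theorem cast_and {P : ℕ → ℕ → ℕ → Raw → Prop} {r : Raw}
    (h : P (d ^ k * 1) ((d ^ k * ∏ i, R i) * p) ((∏ i, R i) * p) r) :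
    P (d ^ k) (d ^ k * ((∏ i, R i) * p)) ((∏ i, R i) * p) r := by
  rw [mul_one, mul_assoc] at h
  exact h

theorem term_valid (S : Fin k → Bool) (x : List Bool) :
    Valid (d ^ k) (d ^ k * ((∏ i, R i) * p)) ((∏ i, R i) * p) (term d R p hp f φ S x) := by
  unfold term
  refine cast_and (P := Valid) d R p ?_
  split_ifs
  · have h1 := andF_valid fun i => comp_valid d R f S x i
    rw [prod_eq] at h1
    exact and_valid h1 (triv_valid p)
  · exact and_valid (trivD_valid _ _) ⟨p, p, p * p, _, Nat.mul_pos hp hp, inc_fib p hp,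
      inc_simple p hp, rfl⟩

theorem poly_total (hf : ∀ i, PolyTime (f i)) (hφ : ∀ b, PolyTime fun x => [φ x b]) :
    PolyTime fun x => bits (total d R p hp f φ x) := by
  refine polyTime_bits ?_
  refine poly_orF _ fun j => ?_
  have h1 : ∀ i, Poly fun x => comp d R f (subs k j) x i := by
    intro i
    unfold comp
    split_ifs
    · exact (poly_norm d (R i)).comp (Med.poly_of_polyTime (hf i))
    · exact NPC.Poly.const _
  have h2 : Poly fun x => andR p (andF k R (comp d R f (subs k j) x)) (triv p) :=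
    poly_andR p (poly_andF R h1) (NPC.Poly.const _)
  exact NPC.Poly.ite ((poly_head (hφ (subs k j))).congr fun x => by simp) h2 (NPC.Poly.const _)

end reduction

/-- Positive truth-table reductions to gap `d`-to-1 games become many-one reductions to gap
`d ^ k`-to-1 games. -/
theorem red_of_posTT {k : ℕ} {L : Set (List Bool)} {R : Fin k → ℕ} {δ : ℝ} (hd : 0 < d)
    (hδ : 0 < δ) (hδ1 : δ ≤ 1) (hR : ∀ i, 0 < R i) (p : ℕ) (hp : p.Prime)
    (hpδ : 1 + δ ≤ δ ^ 2 * p)
    (h : PosTT L (fun i => Yes d (R i)) (fun i => No δ d (R i))) :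
    Red L (Yes (d ^ k) (2 ^ k * ((∏ i, R i) * p)))
      (No (2 ^ k * δ) (d ^ k) (2 ^ k * ((∏ i, R i) * p))) := by
  classical
  have hp0 : 0 < p := hp.pos
  have : Fact p.Prime := ⟨hp⟩
  obtain ⟨f, φ, hf, hφ, hmon, hA⟩ := h
  have hass : d ^ k * (2 ^ k * ((∏ i, R i) * p)) = 2 ^ k * (d ^ k * ((∏ i, R i) * p)) := by
    ring
  refine ⟨fun x => bits (total d R p hp0 f φ x), poly_total d R p hp0 f φ hf hφ,
    fun x => ⟨fun hx => ?_, fun hx => ?_⟩⟩
  · rw [mem_Yes, hass]
    refine ⟨_, ?_, rfl⟩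
    have h1 := (hA (fun i => Yes d (R i)) (fun i => subset_rfl) (fun i => disjoint hδ1) x).1 hx
    obtain ⟨j, hj⟩ := (subs k).surjective fun i => decide (f i x ∈ Yes d (R i))
    refine orF_yes (pow_pos hd k) (fun i => term_valid d R p hp0 f φ _ x) j ?_
    rw [hj]
    unfold term
    have h1' : φ x (fun i => decide (f i x ∈ Yes d (R i))) = true := by
      refine Eq.trans (congrArg (φ x) ?_) h1
      funext i
      congr
    rw [if_pos h1']
    refine cast_and (P := YesR) d R p ?_
    have h2 : YesR (d ^ k) (∏ i, d * R i) (∏ i, R i)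
        (andF k R (comp d R f (fun i => decide (f i x ∈ Yes d (R i))) x)) := by
      refine andF_yes fun i => ?_
      unfold comp
      split_ifs with h3
      · exact norm_yes (of_decide_eq_true h3)
      · exact trivD_yes hd (hR i)
    rw [prod_eq] at h2
    exact and_yesR h2 (triv_yes hp0)
  · rw [mem_No, hass]
    refine ⟨_, ?_, rfl⟩
    have h1 : ¬ φ x (fun i => decide (f i x ∈ (No δ d (R i))ᶜ)) = true := by
      intro h1
      refine hx ((hA (fun i => (No δ d (R i))ᶜ) (fun i => ?_) (fun i => disjoint_compl_left) x).2 ?_)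
      · exact Set.subset_compl_iff_disjoint_right.2 (disjoint hδ1)
      · refine Eq.trans (congrArg (φ x) ?_) h1
        funext i
        congr
    have h2 : ∀ S, NoR δ (d ^ k) (d ^ k * ((∏ i, R i) * p)) ((∏ i, R i) * p)
        (term d R p hp0 f φ S x) := by
      intro S
      unfold term
      refine cast_and (P := NoR δ) d R p ?_
      split_ifs with h3
      · have h4 : ∃ i, S i = true ∧ f i x ∈ No δ d (R i) := by
          by_contra hcon
          push Not at hcon
          refine h1 ?_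
          have h5 : S ≤ fun i => decide (f i x ∈ (No δ d (R i))ᶜ) := by
            intro i
            by_cases hS : S i = true
            · show S i ≤ decide (f i x ∈ (No δ d (R i))ᶜ)
              rw [hS, decide_eq_true (show f i x ∈ (No δ d (R i))ᶜ from hcon i hS)]
            · rw [Bool.not_eq_true] at hS
              rw [hS]
              exact Bool.false_le _
          have h6 := hmon x h5
          rw [h3] at h6
          exact Bool.eq_true_of_true_le h6
        obtain ⟨i, hS, hi⟩ := h4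
        have h7 : NoR δ (d ^ k) (∏ i, d * R i) (∏ i, R i) (andF k R (comp d R f S x)) := by
          refine andF_no (fun i => comp_valid d R f S x i) i ?_
          unfold comp
          rw [if_pos hS]
          exact norm_no hi
        rw [prod_eq] at h7
        exact and_noR_left h7 (triv_valid p)
      · exact and_noR_right (trivD_valid _ _) (inc_no p hp0 hδ hpδ)
    have h3 := orF_no hδ (pow_pos two_pos k) (fun j => h2 (subs k j))
    push_cast at h3
    exact h3

/-! ### Disjunctive reductions -/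

/-- The language `L` has a disjunctive truth-table reduction to the promise problems `(Y i, Z i)`
with `k` queries, one to each of them: the queries `f i x` are computed in polynomial time and, for
all sets `A i` which solve the promise problems, `x` belongs to `L` if and only if some `f i x`
belongs to `A i`. -/
def DisjTT {k : ℕ} (L : Set (List Bool)) (Y Z : Fin k → Set (List Bool)) : Prop :=
  ∃ f : Fin k → List Bool → List Bool, (∀ i, PolyTime (f i)) ∧
    ∀ A : Fin k → Set (List Bool), (∀ i, Y i ⊆ A i) → (∀ i, Disjoint (A i) (Z i)) →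
      ∀ x, x ∈ L ↔ ∃ i, f i x ∈ A i

/-- Disjunctive reductions to gap `d`-to-1 games become many-one reductions. -/
theorem red_of_disjTT {k : ℕ} (hk : 0 < k) {L : Set (List Bool)} {R : Fin k → ℕ} {δ : ℝ}
    (hd : 0 < d) (hδ : 0 < δ) (hδ1 : δ ≤ 1)
    (h : DisjTT L (fun i => Yes d (R i)) (fun i => No δ d (R i))) :
    Red L (Yes d (∑ i, R i)) (No (k * δ) d (∑ i, R i)) := by
  obtain ⟨f, hf, hA⟩ := h
  refine ⟨fun x => bits (orV k R fun i => norm d (R i) (f i x)),
    polyTime_bits (poly_orV R fun i => (poly_norm d (R i)).comp (Med.poly_of_polyTime (hf i))),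
    fun x => ⟨fun hx => ?_, fun hx => ?_⟩⟩
  · rw [mem_Yes, Finset.mul_sum]
    refine ⟨_, ?_, rfl⟩
    obtain ⟨i, hi⟩ := (hA (fun i => Yes d (R i)) (fun i => subset_rfl)
      (fun i => disjoint hδ1) x).1 hx
    exact orV_yes hd (fun i => norm_valid d (R i) _) i (norm_yes hi)
  · rw [mem_No, Finset.mul_sum]
    refine ⟨_, ?_, rfl⟩
    have h1 : ∀ i, f i x ∈ No δ d (R i) := by
      intro i
      by_contra hi
      exact hx ((hA (fun i => (No δ d (R i))ᶜ)
        (fun i => Set.subset_compl_iff_disjoint_right.2 (disjoint hδ1))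
        (fun i => disjoint_compl_left) x).2 ⟨i, hi⟩)
    exact orV_no hδ hk fun i => norm_no (h1 i)

theorem disjTT_of_red {L Y Z : Set (List Bool)} (h : Red L Y Z) :
    DisjTT (k := 1) L (fun _ => Y) (fun _ => Z) := by
  obtain ⟨f, hf, h⟩ := h
  refine ⟨fun _ => f, fun _ => hf, fun A hA hA' x => ⟨fun hx => ⟨0, hA 0 ((h x).1 hx)⟩, ?_⟩⟩
  rintro ⟨i, hi⟩
  by_contra hx'
  exact Set.disjoint_left.1 (hA' i) hi ((h x).2 hx')

theorem No.mono {δ δ' : ℝ} {R : ℕ} (h : δ ≤ δ') : No δ d R ⊆ No δ' d R := by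
  rintro x ⟨N, M, k, g, h1, h2, h3, h4, h5⟩
  exact ⟨N, M, k, g, h1, h2, h3, fun L R => (h4 L R).trans_le
    (mul_le_mul_of_nonneg_right h (Nat.cast_nonneg _)), h5⟩

end Pool.Agent.U16.DTO
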